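import Pool.Agent.H862R3.Prim.Stmts

/-! Task A of project PRIMVAR. -/

set_option autoImplicit false

namespace Pool.Agent.H123R3.PVA

open Pool.Agent.H862R3.Prim

theorem laws_of_inj {W : Set (FreeGroup ℕ)} {G H : Type} [Group G] [Group H] (φ : H →* G)
    (hφ : Function.Injective φ) (h : Laws W G) : Laws W H := by
  intro w hw f
  apply hφ
  rw [map_one, ← h w hw (fun n => φ (f n))]
  have : φ.comp (FreeGroup.lift f) = FreeGroup.lift (fun n => φ (f n)) := by
    ext n
    simp
  exact DFunLike.congr_fun this w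

theorem laws_prod {W : Set (FreeGroup ℕ)} {G H : Type} [Group G] [Group H]
    (hG : Laws W G) (hH : Laws W H) : Laws W (G × H) := by
  intro w hw f
  have h1 : (MonoidHom.fst G H).comp (FreeGroup.lift f) = FreeGroup.lift (fun n => (f n).1) := by
    ext n
    simp
  have h2 : (MonoidHom.snd G H).comp (FreeGroup.lift f) = FreeGroup.lift (fun n => (f n).2) := by
    ext n
    simp
  apply Prod.ext
  · have := DFunLike.congr_fun h1 w
    rw [hG w hw] at this
    exact this
  · have := DFunLike.congr_fun h2 w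
    rw [hH w hw] at this
    exact this

/-- powers of `m x ^ i` -/
theorem pow_form {G : Type} [Group G] (M : Subgroup G) (hM : M.Normal) (X m : G) (hm : m ∈ M)
    (i : ℤ) (n : ℕ) : ∃ m' ∈ M, (m * X ^ i) ^ n = m' * X ^ (i * n) := by
  induction n with
  | zero => exact ⟨1, M.one_mem, by simp⟩
  | succ n ih =>
    obtain ⟨m', hm', e⟩ := ih
    refine ⟨m' * (X ^ (i * n) * m * (X ^ (i * n))⁻¹), M.mul_mem hm' (hM.conj_mem m hm _), ?_⟩
    rw [pow_succ, e]
    have : X ^ (i * ((n + 1 : ℕ) : ℤ)) = X ^ (i * n) * X ^ i := by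
      rw [← zpow_add]
      congr 1
      push_cast
      ring
    rw [this]
    group

theorem core {G : Type} [Group G] [Finite G] {W : Set (FreeGroup ℕ)} (hC : CondC W)
    (hG : Laws W G) (M : Subgroup G) (hM : M.Normal) (hMc : Comm M) {p q : ℕ} (hp : p.Prime)
    (hq : q.Prime) (hpq : p ≠ q) (hMp : ∀ x ∈ M, x ^ p = 1) (X : G)
    (hXq : ∀ m ∈ M, Commute (X ^ q) m) (hX : ∀ i : ℤ, ¬ (q : ℤ) ∣ i → X ^ (i * q * p) ≠ 1) :
    ∀ m ∈ M, X * m = m * X := by
  classical
  by_contra hcon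
  push Not at hcon
  obtain ⟨m0, hm0, hne⟩ := hcon
  have hXqi : ∀ (i : ℤ), ∀ m ∈ M, Commute (X ^ ((q : ℤ) * i)) m := by
    intro i m hm
    rw [zpow_mul, zpow_natCast]
    exact (hXq m hm).zpow_left i
  -- a minimal non-commutative subgroup
  let S : Set (Subgroup G) := {H | H ≤ M ⊔ Subgroup.zpowers X ∧ ¬ Comm H}
  have hS : (M ⊔ Subgroup.zpowers X) ∈ S := by
    refine ⟨le_rfl, fun h => hne ?_⟩
    exact h X ((le_sup_right : Subgroup.zpowers X ≤ _) (Subgroup.mem_zpowers X)) m0
      ((le_sup_left : M ≤ _) hm0)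
  obtain ⟨H, hHm⟩ := (Set.toFinite S).exists_minimal ⟨_, hS⟩
  obtain ⟨hHΓ, hHn⟩ := hHm.prop
  have hMin : MinNonab H := by
    constructor
    · intro h
      apply hHn
      intro x hx y hy
      have := h ⟨x, hx⟩ ⟨y, hy⟩
      exact congrArg Subtype.val this
    · intro K hK x hx y hy
      by_contra hxy
      apply hK
      have hKS : K.map H.subtype ∈ S := by
        refine ⟨le_trans (Subgroup.map_subtype_le K) hHΓ, fun h => hxy ?_⟩
        apply Subtype.ext
        exact h x.1 ⟨x, hx, rfl⟩ y.1 ⟨y, hy, rfl⟩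
      have hle := hHm.le_of_le hKS (Subgroup.map_subtype_le K)
      rw [eq_top_iff]
      intro z _
      obtain ⟨z', hz', e⟩ := hle z.2
      have : z' = z := Subtype.ext e
      rw [← this]
      exact hz'
  have hcen := hC H (laws_of_inj H.subtype H.subtype_injective hG) hMin
  have hform : ∀ h ∈ H, ∃ m ∈ M, ∃ i : ℤ, h = m * X ^ i := by
    intro h hh
    have h1 : h ∈ ((M ⊔ Subgroup.zpowers X : Subgroup G) : Set G) := hHΓ hh
    rw [Subgroup.normal_mul] at h1
    obtain ⟨m, hm, y, hy, rfl⟩ := h1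
    obtain ⟨i, rfl⟩ := Subgroup.mem_zpowers_iff.1 hy
    exact ⟨m, hm, i, rfl⟩
  obtain ⟨h, hh, hnd⟩ : ∃ h ∈ H, ∀ m ∈ M, ∀ i : ℤ, (q : ℤ) ∣ i → h ≠ m * X ^ i := by
    by_contra hc
    push Not at hc
    apply hHn
    intro a ha b hb
    obtain ⟨m, hm, i, ⟨i', rfl⟩, rfl⟩ := hc a ha
    obtain ⟨n, hn, j, ⟨j', rfl⟩, rfl⟩ := hc b hb
    have c1 : Commute m n := hMc m hm n hn
    have c2 : Commute m (X ^ ((q : ℤ) * j')) := (hXqi j' m hm).symm
    have c3 : Commute (X ^ ((q : ℤ) * i')) n := hXqi i' n hn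
    have c4 : Commute (X ^ ((q : ℤ) * i')) (X ^ ((q : ℤ) * j')) := (Commute.refl X).zpow_zpow _ _
    exact (c1.mul_right c2).mul_left (c3.mul_right c4)
  obtain ⟨m, hm, i, rfl⟩ := hform h hh
  have hqi : ¬ (q : ℤ) ∣ i := fun hd => hnd m hm i hd rfl
  obtain ⟨m', hm', e⟩ := pow_form M hM X m hm i q
  have hz : ((m * X ^ i) ^ q) ^ p = X ^ (i * q * p) := by
    have hcm : Commute m' (X ^ (i * (q : ℤ))) := by
      have := hXqi i m' hm'
      rw [mul_comm (q : ℤ) i] at this
      exact this.symm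
    rw [e, hcm.mul_pow, hMp m' hm', one_mul, ← zpow_natCast, ← zpow_mul]
  have hzH : X ^ (i * q * p) ∈ H := by
    rw [← hz]
    exact H.pow_mem (H.pow_mem hh _) _
  have hzc : (⟨X ^ (i * q * p), hzH⟩ : H) ∈ Subgroup.center H := by
    rw [Subgroup.mem_center_iff]
    intro g
    apply Subtype.ext
    obtain ⟨n, hn, j, hj⟩ := hform g.1 g.2
    have c1 : Commute (X ^ (i * q * p)) n := by
      have := hXqi (i * p) n hn
      have e : (q : ℤ) * (i * p) = i * q * p := by ring
      rwa [e] at this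
    have c2 : Commute (X ^ (i * (q : ℤ) * p)) (X ^ j) := (Commute.refl X).zpow_zpow _ _
    have c3 := c1.mul_right c2
    rw [← hj] at c3
    exact c3.symm
  rw [hcen, Subgroup.mem_bot] at hzc
  exact hX i hqi (congrArg Subtype.val hzc)

theorem taskA : TaskA := by
  classical
  rintro W hC q hq ⟨G1, _, g, hG1, hg⟩ G _ _ hG M hM hMc p hp hpq hMp x ⟨k, hk⟩
  haveI : Finite (Subgroup.zpowers g) := by
    rw [← Nat.card_pos_iff.trans ⟨fun h => h.2, fun h => ⟨inferInstance, h⟩⟩, Nat.card_zpowers, hg]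
    exact pow_pos hq.pos 2
  let c : Subgroup.zpowers g := ⟨g, Subgroup.mem_zpowers g⟩
  have hc : orderOf c = q ^ 2 := by
    rw [← hg]
    exact (orderOf_injective (Subgroup.zpowers g).subtype
      (Subgroup.zpowers g).subtype_injective c).symm
  have hGC : Laws W (G × Subgroup.zpowers g) :=
    laws_prod hG (laws_of_inj _ (Subgroup.zpowers g).subtype_injective hG1)
  -- all elements `y` with `y ^ q` centralising
  have step : ∀ y : G, (∀ m ∈ M, Commute (y ^ q) m) → ∀ m ∈ M, Commute y m := by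
    intro y hy
    have hM2 : (M.prod (⊥ : Subgroup (Subgroup.zpowers g))).Normal := inferInstance
    have := core hC hGC (M.prod ⊥) hM2 (p := p) (q := q) ?_ hp hq hpq ?_ (y, c) ?_ ?_
    · intro m hm
      have h1 := this (m, 1) ⟨hm, Subgroup.mem_bot.2 rfl⟩
      exact congrArg Prod.fst h1
    · rintro ⟨a, a'⟩ ⟨ha, ha'⟩ ⟨b, b'⟩ ⟨hb, hb'⟩
      have e1 : a' = 1 := Subgroup.mem_bot.1 ha'
      have e2 : b' = 1 := Subgroup.mem_bot.1 hb'
      subst e1 e2
      exact Prod.ext (hMc a ha b hb) rfl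
    · rintro ⟨a, a'⟩ ⟨ha, ha'⟩
      have e1 : a' = 1 := Subgroup.mem_bot.1 ha'
      subst e1
      exact Prod.ext (hMp a ha) (one_pow p)
    · rintro ⟨a, a'⟩ ⟨ha, ha'⟩
      have e1 : a' = 1 := Subgroup.mem_bot.1 ha'
      subst e1
      have h1 : y ^ q * a = a * y ^ q := hy a ha
      exact Prod.ext h1 (by simp)
    · intro i hi h1
      have h2 : c ^ (i * q * p) = 1 := congrArg Prod.snd h1
      rw [← orderOf_dvd_iff_zpow_eq_one, hc] at h2
      have h3 : (q : ℤ) ∣ i * p := by
        have e : i * (q : ℤ) * p = q * (i * p) := by ring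
        rw [e] at h2
        push_cast at h2
        rw [pow_two] at h2
        exact (mul_dvd_mul_iff_left (by exact_mod_cast hq.ne_zero)).1 h2
      rcases (Nat.prime_iff_prime_int.1 hq).dvd_or_dvd h3 with h | h
      · exact hi h
      · rw [Int.natCast_dvd_natCast] at h
        exact hpq ((Nat.prime_dvd_prime_iff_eq hq hp).1 h).symm
  have hall : ∀ j : ℕ, (∀ m ∈ M, Commute (x ^ q ^ j) m) → ∀ m ∈ M, Commute x m := by
    intro j
    induction j with
    | zero => intro h; simpa using h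
    | succ j ih =>
      intro h
      apply ih
      apply step
      rw [← pow_mul, ← pow_succ]
      exact h
  apply hall k
  rw [hk]
  exact fun m _ => Commute.one_left m

end Pool.Agent.H123R3.PVA
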