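import Mathlib

/-! # One-dimensional estimates -/

set_option autoImplicit false

open MeasureTheory Set Filter Topology Metric
open scoped ENNReal

namespace Pool.Agent.H123R3

/-- `|u|^(-s)` near zero. -/
noncomputable def pw (s : ℝ) (u : ℝ) : ℝ≥0∞ := (ENNReal.ofReal |u|) ^ (-s)

lemma pw_meas (s : ℝ) : Measurable (pw s) := by
  unfold pw
  exact ((measurable_id.abs).ennreal_ofReal).pow_const _

lemma pw_ball {s : ℝ} (hs1 : s < 1) : ∫⁻ u in ball (0 : ℝ) 1, pw s u < ⊤ := by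
  have h1 : IntegrableOn (fun u : ℝ => |u| ^ (-s)) (ball (0 : ℝ) 1) := by
    refine integrableOn_ball_of_norm_le_rpow (μ := (volume : Measure ℝ)) (C := 1)
      (α := s) (by simp) (by simpa using hs1) ?_ ?_
    · refine ae_of_all _ (fun x => ?_)
      rw [one_mul, Real.norm_of_nonneg (by positivity), Real.norm_eq_abs]
    · exact ((measurable_id.abs).pow_const _).aestronglyMeasurable
  have h2 : ∫⁻ u in ball (0 : ℝ) 1, pw s u = ∫⁻ u in ball (0 : ℝ) 1, ENNReal.ofReal (|u| ^ (-s)) := by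
    apply lintegral_congr_ae
    apply ae_restrict_of_ae
    have h0 : ∀ᵐ y : ℝ, y ≠ 0 := by
      rw [ae_iff]; simp
    filter_upwards [h0] with y hy
    have hp : 0 < |y| := abs_pos.2 hy
    unfold pw
    rw [ENNReal.ofReal_rpow_of_pos hp]
  rw [h2]
  exact h1.lintegral_lt_top

/-- the translation invariant majorant -/
noncomputable def psi (u : ℝ) : ℝ≥0∞ :=
  (ball (0 : ℝ) 1).indicator (pw (1 / 2)) u + ENNReal.ofReal (6 * (1 + u ^ 2)⁻¹)

lemma psi_meas : Measurable psi := by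
  unfold psi
  apply Measurable.add
  · exact (pw_meas _).indicator measurableSet_ball
  · fun_prop

lemma psi_fin : ∫⁻ u, psi u < ⊤ := by
  unfold psi
  rw [lintegral_add_left ((pw_meas _).indicator measurableSet_ball),
    lintegral_indicator measurableSet_ball]
  refine ENNReal.add_lt_top.2 ⟨pw_ball (by norm_num), ?_⟩
  have : Integrable (fun u : ℝ => 6 * (1 + u ^ 2)⁻¹) := integrable_inv_one_add_sq.const_mul 6
  exact this.lintegral_lt_top

lemma cube_bound (y b : ℝ) :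
    ENNReal.ofReal (|y| / (1 + |y ^ 3 - b ^ 3|)) ≤ psi (y - b) := by
  set u := y - b with hu
  have hfac : y ^ 3 - b ^ 3 = u * (y ^ 2 + y * b + b ^ 2) := by rw [hu]; ring
  have hq0 : 3 / 4 * y ^ 2 ≤ y ^ 2 + y * b + b ^ 2 := by nlinarith [sq_nonneg (y / 2 + b)]
  have hq1 : 1 / 4 * u ^ 2 ≤ y ^ 2 + y * b + b ^ 2 := by rw [hu]; nlinarith [sq_nonneg (y + b)]
  have hqn : 0 ≤ y ^ 2 + y * b + b ^ 2 := by nlinarith [sq_nonneg y]
  have habs : |y ^ 3 - b ^ 3| = |u| * (y ^ 2 + y * b + b ^ 2) := by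
    rw [hfac, abs_mul, abs_of_nonneg hqn]
  by_cases hu1 : |u| < 1
  · have hmem : u ∈ ball (0 : ℝ) 1 := by simpa using hu1
    unfold psi
    rw [indicator_of_mem hmem]
    refine le_trans ?_ le_self_add
    by_cases hu0 : u = 0
    · rw [hu0]
      unfold pw
      simp
    have hup : 0 < |u| := abs_pos.2 hu0
    unfold pw
    rw [ENNReal.ofReal_rpow_of_pos hup]
    apply ENNReal.ofReal_le_ofReal
    rw [Real.rpow_neg hup.le, ← Real.sqrt_eq_rpow]
    set r := √|u| with hr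
    have hrp : 0 < r := Real.sqrt_pos.2 hup
    have hr2 : r ^ 2 = |u| := Real.sq_sqrt hup.le
    rw [inv_eq_one_div, div_le_div_iff₀ (by positivity) hrp, one_mul, habs, ← hr2]
    have hy2 : |y| ^ 2 = y ^ 2 := sq_abs y
    have hy0 : 0 ≤ |y| := abs_nonneg y
    have h3 : 3 / 4 * (r * |y|) ^ 2 ≤ r ^ 2 * (y ^ 2 + y * b + b ^ 2) := by
      rw [mul_pow, hy2]
      nlinarith [sq_nonneg r]
    nlinarith [sq_nonneg (r * |y| - 1), mul_nonneg hrp.le hy0]
  · have hu1' : 1 ≤ |u| := not_lt.1 hu1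
    refine le_trans ?_ (le_add_self : _ ≤ psi u)
    apply ENNReal.ofReal_le_ofReal
    have hu2 : 1 ≤ u ^ 2 := by rw [← sq_abs]; nlinarith
    have hy0 : 0 ≤ |y| := abs_nonneg y
    have key : 2 / 5 * (|y| * |u|) ≤ y ^ 2 + y * b + b ^ 2 := by
      have h1 : |y| ^ 2 = y ^ 2 := sq_abs y
      have h2 : |u| ^ 2 = u ^ 2 := sq_abs u
      nlinarith [sq_nonneg (|y| - |u|), sq_nonneg (3 * |y| - 2 * |u|), sq_nonneg (|y| - 1/2 * |u|)]
    rw [← div_eq_mul_inv, div_le_div_iff₀ (by positivity) (by positivity), habs]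
    have h4 : |u| * (2 / 5 * (|y| * |u|)) ≤ |u| * (y ^ 2 + y * b + b ^ 2) :=
      mul_le_mul_of_nonneg_left key (by positivity)
    have h5 : |u| * (2 / 5 * (|y| * |u|)) = 2 / 5 * |y| * u ^ 2 := by
      rw [← sq_abs u]; ring
    nlinarith [mul_nonneg hy0 (sub_nonneg.2 hu2)]

lemma cube_surj (c : ℝ) : ∃ b : ℝ, b ^ 3 = c := by
  have key : ∀ c : ℝ, 0 ≤ c → ∃ b : ℝ, b ^ 3 = c := by
    intro c hc
    refine ⟨c ^ ((3 : ℕ) : ℝ)⁻¹, ?_⟩
    exact Real.rpow_inv_natCast_pow hc (by norm_num)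
  rcases le_total 0 c with h | h
  · exact key c h
  · obtain ⟨b, hb⟩ := key (-c) (by linarith)
    exact ⟨-b, by rw [Odd.neg_pow (by decide), hb]; ring⟩

lemma estA (c : ℝ) : ∫⁻ y : ℝ, ENNReal.ofReal (|y| / (1 + |c + y ^ 3|)) ≤ ∫⁻ u, psi u := by
  obtain ⟨b, hb⟩ := cube_surj (-c)
  calc ∫⁻ y : ℝ, ENNReal.ofReal (|y| / (1 + |c + y ^ 3|)) ≤ ∫⁻ y, psi (y - b) := by
        apply lintegral_mono
        intro y
        have := cube_bound y b
        rw [hb] at this
        have e : y ^ 3 - -c = c + y ^ 3 := by ring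
        rwa [e] at this
    _ = ∫⁻ u, psi u := lintegral_sub_right_eq_self psi b

/-- scaling in one variable -/
lemma scale1 (g : ℝ → ℝ≥0∞) (hg : Measurable g) {a : ℝ} (ha : a ≠ 0) :
    ∫⁻ z, g z = ENNReal.ofReal |a| * ∫⁻ t, g (a * t) := by
  have h1 : ∫⁻ t, g (a * t) = ENNReal.ofReal |a⁻¹| * ∫⁻ z, g z := by
    rw [← lintegral_map hg (measurable_const_mul a), Real.map_volume_mul_left ha,
      lintegral_smul_measure, smul_eq_mul]
  rw [h1, ← mul_assoc, ← ENNReal.ofReal_mul (abs_nonneg _), ← abs_mul, mul_inv_cancel₀ ha]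
  simp

/-- the majorant of `|1 - 3t²|^(-2/3)` -/
noncomputable def phi (a : ℝ) : ℝ≥0∞ :=
  (ball (0 : ℝ) 1).indicator (fun a => 2 * pw (2 / 3) a) a +
    ENNReal.ofReal (2 * (1 + ‖a‖) ^ (-(4 / 3 : ℝ)))

lemma phi_fin : ∫⁻ u, phi u < ⊤ := by
  unfold phi
  rw [lintegral_add_left (((pw_meas _).const_mul 2).indicator measurableSet_ball),
    lintegral_indicator measurableSet_ball, lintegral_const_mul _ (pw_meas _)]
  refine ENNReal.add_lt_top.2 ⟨ENNReal.mul_lt_top (by simp) (pw_ball (by norm_num)), ?_⟩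
  have : Integrable (fun u : ℝ => 2 * (1 + ‖u‖) ^ (-(4 / 3 : ℝ))) :=
    (integrable_one_add_norm (by simp; norm_num)).const_mul 2
  exact this.lintegral_lt_top

lemma phi_aux {a b : ℝ} (ha : 0 < a) (hab : a ≤ b) (hb : 1 / 2 ≤ b) :
    (ENNReal.ofReal (3 * (a * b))) ^ (-(2 / 3) : ℝ) ≤
      (if a < 1 then 2 * (ENNReal.ofReal a) ^ (-(2 / 3) : ℝ) else 0) +
        ENNReal.ofReal (2 * (1 + a) ^ (-(4 / 3 : ℝ))) := by
  have hb0 : 0 < b := by linarith
  rw [ENNReal.ofReal_rpow_of_pos (by positivity)]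
  split_ifs with h1
  · refine le_trans ?_ le_self_add
    rw [ENNReal.ofReal_rpow_of_pos ha, show (2 : ℝ≥0∞) = ENNReal.ofReal 2 by simp,
      ← ENNReal.ofReal_mul (by norm_num)]
    apply ENNReal.ofReal_le_ofReal
    have e : 3 * (a * b) = a * (3 * b) := by ring
    rw [e, Real.mul_rpow ha.le (by positivity)]
    have h2 : (3 * b) ^ (-(2 / 3) : ℝ) ≤ 1 :=
      Real.rpow_le_one_of_one_le_of_nonpos (by linarith) (by norm_num)
    have h3 : 0 ≤ a ^ (-(2 / 3) : ℝ) := by positivity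
    nlinarith
  · rw [zero_add]
    apply ENNReal.ofReal_le_ofReal
    have h1' : 1 ≤ a := not_lt.1 h1
    have h4 : 3 / 4 * (1 + a) ^ 2 ≤ 3 * (a * b) := by nlinarith
    calc (3 * (a * b)) ^ (-(2 / 3) : ℝ) ≤ (3 / 4 * (1 + a) ^ 2) ^ (-(2 / 3) : ℝ) :=
          Real.rpow_le_rpow_of_nonpos (by positivity) h4 (by norm_num)
      _ = (3 / 4 : ℝ) ^ (-(2 / 3) : ℝ) * (1 + a) ^ (-(4 / 3 : ℝ)) := by
          rw [Real.mul_rpow (by norm_num) (by positivity), ← Real.rpow_natCast,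
            ← Real.rpow_mul (by positivity)]
          norm_num
      _ ≤ 2 * (1 + a) ^ (-(4 / 3 : ℝ)) := by
          apply mul_le_mul_of_nonneg_right _ (by positivity)
          have h5 : (3 / 4 : ℝ) ^ (-(2 / 3) : ℝ) ≤ (3 / 4 : ℝ) ^ (-1 : ℝ) :=
            Real.rpow_le_rpow_of_exponent_ge (by norm_num) (by norm_num) (by norm_num)
          refine h5.trans ?_
          rw [Real.rpow_neg_one]; norm_num

lemma phi_eq (t : ℝ) : phi t = (if |t| < 1 then 2 * (ENNReal.ofReal |t|) ^ (-(2 / 3) : ℝ) else 0) +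
        ENNReal.ofReal (2 * (1 + |t|) ^ (-(4 / 3 : ℝ))) := by
  classical
  unfold phi pw
  rw [Set.indicator_apply]
  simp only [mem_ball, dist_zero_right, Real.norm_eq_abs]

/-- `1/√3` -/
noncomputable def tau : ℝ := (√3)⁻¹

lemma tau_sq : 3 * tau ^ 2 = 1 := by
  unfold tau
  rw [inv_pow, Real.sq_sqrt (by norm_num)]; norm_num

lemma tau_pos : 0 < tau := by unfold tau; positivity

lemma tau_gt : 1 / 2 ≤ tau := by
  nlinarith [tau_sq, tau_pos]

lemma phi_bound (t : ℝ) (h1 : t ≠ tau) (h2 : t ≠ -tau) :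
    (ENNReal.ofReal |1 - 3 * t ^ 2|) ^ (-(2 / 3) : ℝ) ≤ phi (t - tau) + phi (t + tau) := by
  have e : 1 - 3 * t ^ 2 = -(3 * ((t - tau) * (t + tau))) := by
    have := tau_sq
    nlinarith
  have ha : 0 < |t - tau| := abs_pos.2 (sub_ne_zero.2 h1)
  have hb : 0 < |t + tau| := abs_pos.2 (by intro h; apply h2; linarith)
  have hsum : 2 * tau ≤ |t - tau| + |t + tau| := by
    have h3 := neg_abs_le (t - tau)
    have h4 := le_abs_self (t + tau)
    linarith
  have h12 := tau_gt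
  rw [e, abs_neg, abs_mul, abs_mul, abs_of_pos (show (0 : ℝ) < 3 by norm_num)]
  rcases le_total |t - tau| |t + tau| with h | h
  · refine le_trans ?_ le_self_add
    rw [phi_eq]
    exact phi_aux ha h (by linarith)
  · refine le_trans ?_ le_add_self
    rw [phi_eq, mul_comm |t - tau|]
    exact phi_aux hb h (by linarith)

lemma estB : ∫⁻ t : ℝ, (ENNReal.ofReal |1 - 3 * t ^ 2|) ^ (-(2 / 3) : ℝ) < ⊤ := by
  have h : ∫⁻ t : ℝ, (ENNReal.ofReal |1 - 3 * t ^ 2|) ^ (-(2 / 3) : ℝ) ≤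
      ∫⁻ t : ℝ, (phi (t - tau) + phi (t + tau)) := by
    apply lintegral_mono_ae
    have h0 : ∀ᵐ y : ℝ, y ≠ tau := by rw [ae_iff]; simp
    have h0' : ∀ᵐ y : ℝ, y ≠ -tau := by rw [ae_iff]; simp
    filter_upwards [h0, h0'] with y hy hy'
    exact phi_bound y hy hy'
  refine h.trans_lt ?_
  have hm : Measurable phi := by
    unfold phi
    apply Measurable.add
    · exact ((pw_meas _).const_mul 2).indicator measurableSet_ball
    · fun_prop
  have hm1 : Measurable (fun t => phi (t - tau)) := hm.comp (measurable_id.sub_const tau)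
  rw [lintegral_add_left hm1, lintegral_sub_right_eq_self phi,
    lintegral_add_right_eq_self phi]
  exact ENNReal.add_lt_top.2 ⟨phi_fin, phi_fin⟩

end Pool.Agent.H123R3
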