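import Pool.Agent.H123R3.Est1

/-! # The two-dimensional estimate -/

set_option autoImplicit false

open MeasureTheory Set Filter Topology Metric
open scoped ENNReal

namespace Pool.Agent.H123R3

/-- the harmonic polynomial `y³ - 3 y z²` -/
def hh (y z : ℝ) : ℝ := y ^ 3 - 3 * y * z ^ 2

/-- the constant of the one-dimensional estimate -/
noncomputable def MA : ℝ≥0∞ := ∫⁻ u, psi u

lemma estA' (c s : ℝ) (hs : s = 1 ∨ s = -1) :
    ∫⁻ y : ℝ, ENNReal.ofReal (|y| / (1 + |c + s * y ^ 3|)) ≤ MA := by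
  rcases hs with rfl | rfl
  · simpa [MA] using estA c
  · refine le_trans (le_of_eq ?_) (estA (-c))
    congr 1
    ext y
    congr 3
    rw [← abs_neg]
    congr 1
    ring

lemma estQ (c q : ℝ) (hq : q ≠ 0) :
    ∫⁻ y : ℝ, ENNReal.ofReal (|y| / (1 + |c + q * y ^ 3|)) ≤
      (ENNReal.ofReal |q|) ^ (-(2 / 3) : ℝ) * MA := by
  have hqp : 0 < |q| := abs_pos.2 hq
  set l : ℝ := |q| ^ (-(1 / 3) : ℝ) with hl
  have hlp : 0 < l := Real.rpow_pos_of_pos hqp _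
  have hl3 : l ^ 3 = |q|⁻¹ := by
    rw [hl, ← Real.rpow_natCast, ← Real.rpow_mul hqp.le]
    norm_num
    rw [Real.rpow_neg_one]
  have hl2 : l ^ 2 = |q| ^ (-(2 / 3) : ℝ) := by
    rw [hl, ← Real.rpow_natCast, ← Real.rpow_mul hqp.le]
    norm_num
  obtain ⟨s, hs, hs'⟩ : ∃ s : ℝ, (s = 1 ∨ s = -1) ∧ q = s * |q| := by
    rcases lt_or_gt_of_ne hq with h | h
    · exact ⟨-1, Or.inr rfl, by rw [abs_of_neg h]; ring⟩
    · exact ⟨1, Or.inl rfl, by rw [abs_of_pos h]; ring⟩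
  rw [scale1 _ (by fun_prop) hlp.ne']
  have e : ∀ t : ℝ, ENNReal.ofReal (|l * t| / (1 + |c + q * (l * t) ^ 3|)) =
      ENNReal.ofReal l * ENNReal.ofReal (|t| / (1 + |c + s * t ^ 3|)) := by
    intro t
    rw [← ENNReal.ofReal_mul hlp.le, abs_mul, abs_of_pos hlp]
    congr 1
    have : q * (l * t) ^ 3 = s * t ^ 3 := by
      rw [mul_pow, hl3]
      have : q * (|q|⁻¹ * t ^ 3) = (s * |q|) * (|q|⁻¹ * t ^ 3) := by rw [← hs']
      rw [this]
      field_simp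
    rw [this]
    ring
  simp_rw [e]
  rw [lintegral_const_mul _ (by fun_prop), ← mul_assoc, abs_of_pos hlp,
    ← ENNReal.ofReal_mul hlp.le, ENNReal.ofReal_rpow_of_pos hqp, ← hl2, sq]
  gcongr
  exact estA' c s hs

/-- the constant of the two-dimensional estimate -/
noncomputable def MC : ℝ≥0∞ := (∫⁻ t : ℝ, (ENNReal.ofReal |1 - 3 * t ^ 2|) ^ (-(2 / 3) : ℝ)) * MA

lemma MC_fin : MC < ⊤ := ENNReal.mul_lt_top estB psi_fin

lemma estC (c : ℝ) :
    ∫⁻ y : ℝ, ∫⁻ z : ℝ, ENNReal.ofReal (1 / (1 + |c + hh y z|)) ≤ MC := by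
  have h1 : ∀ y : ℝ, y ≠ 0 → ∫⁻ z : ℝ, ENNReal.ofReal (1 / (1 + |c + hh y z|)) =
      ∫⁻ t : ℝ, ENNReal.ofReal (|y| / (1 + |c + (1 - 3 * t ^ 2) * y ^ 3|)) := by
    intro y hy
    rw [scale1 _ (by unfold hh; fun_prop) hy, ← lintegral_const_mul _ (by unfold hh; fun_prop)]
    congr 1
    ext t
    rw [← ENNReal.ofReal_mul (abs_nonneg y)]
    congr 1
    unfold hh
    have : y ^ 3 - 3 * y * (y * t) ^ 2 = (1 - 3 * t ^ 2) * y ^ 3 := by ring
    rw [this]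
    ring
  have h0 : ∀ᵐ y : ℝ, y ≠ 0 := by rw [ae_iff]; simp
  have h2 : ∫⁻ y : ℝ, ∫⁻ z : ℝ, ENNReal.ofReal (1 / (1 + |c + hh y z|)) =
      ∫⁻ y : ℝ, ∫⁻ t : ℝ, ENNReal.ofReal (|y| / (1 + |c + (1 - 3 * t ^ 2) * y ^ 3|)) := by
    apply lintegral_congr_ae
    filter_upwards [h0] with y hy
    exact h1 y hy
  rw [h2, lintegral_lintegral_swap (by
    apply Measurable.aemeasurable
    fun_prop)]
  have h3 : ∀ᵐ t : ℝ, 1 - 3 * t ^ 2 ≠ 0 := by
    have ha : ∀ᵐ y : ℝ, y ≠ tau := by rw [ae_iff]; simp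
    have hb : ∀ᵐ y : ℝ, y ≠ -tau := by rw [ae_iff]; simp
    filter_upwards [ha, hb] with t h4 h5 h6
    have h7 := tau_sq
    have : (t - tau) * (t + tau) = 0 := by nlinarith
    rcases mul_eq_zero.1 this with h | h
    · exact h4 (by linarith)
    · exact h5 (by linarith)
  calc ∫⁻ t : ℝ, ∫⁻ y : ℝ, ENNReal.ofReal (|y| / (1 + |c + (1 - 3 * t ^ 2) * y ^ 3|)) ≤
      ∫⁻ t : ℝ, (ENNReal.ofReal |1 - 3 * t ^ 2|) ^ (-(2 / 3) : ℝ) * MA := by
        apply lintegral_mono_ae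
        filter_upwards [h3] with t ht
        exact estQ c _ ht
    _ = MC := by
        unfold MC
        rw [lintegral_mul_const]
        exact (Measurable.ennreal_ofReal (by fun_prop)).pow_const _

end Pool.Agent.H123R3
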