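import Pool.Agent.H123R3.Est2

/-! # The three-dimensional estimate -/

set_option autoImplicit false

open MeasureTheory Set Filter Topology Metric
open scoped ENNReal

namespace Pool.Agent.H123R3

/-- three-dimensional Euclidean space -/
abbrev E3 := EuclideanSpace ℝ (Fin 3)

lemma iter3 (F : ℝ × (ℝ × ℝ) → ℝ≥0∞) (hF : Measurable F) :
    ∫⁻ w : E3, F (w 0, (w 1, w 2)) = ∫⁻ y : ℝ, ∫⁻ z : ℝ, ∫⁻ x : ℝ, F (x, (y, z)) := by
  have m1 := EuclideanSpace.volume_preserving_symm_measurableEquiv_toLp (Fin 3)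
  have m2 := volume_preserving_piFinSuccAbove (fun _ : Fin 3 => ℝ) 0
  have m3 := volume_preserving_finTwoArrow ℝ
  have m4 := (MeasurePreserving.id (volume : Measure ℝ)).prod m3
  have m5 : MeasurePreserving (fun w : E3 => ((w 0, (w 1, w 2)) : ℝ × (ℝ × ℝ))) := by
    have := (m4.comp m2).comp m1
    exact this
  rw [m5.lintegral_comp hF]
  rw [Measure.volume_eq_prod, lintegral_prod_symm' _ hF, Measure.volume_eq_prod,
    lintegral_prod _ (by
      apply Measurable.aemeasurable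
      exact (hF.comp measurable_swap).lintegral_prod_right')]

/-- truncated power -/
noncomputable def nu (s : ℝ) (u : ℝ) : ℝ≥0∞ := (ball (0 : ℝ) 1).indicator (pw s) u

lemma nu_meas (s : ℝ) : Measurable (nu s) := (pw_meas s).indicator measurableSet_ball

lemma nu_fin {s : ℝ} (hs : s < 1) : ∫⁻ u, nu s u < ⊤ := by
  unfold nu
  rw [lintegral_indicator measurableSet_ball]
  exact pw_ball hs

lemma nu_int (s X : ℝ) : ∫⁻ u, nu s (X - u) = ∫⁻ u, nu s u :=
  lintegral_sub_left_eq_self (nu s) X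

/-- the kernel -/
noncomputable def KK (a : E3) : ℝ≥0∞ := ENNReal.ofReal (‖a‖⁻¹ + (‖a‖⁻¹) ^ 2)

/-- the layer -/
def LL (R : ℝ) : Set E3 := {w | |w 0 + hh (w 1) (w 2)| ≤ R}

lemma LL_meas (R : ℝ) : MeasurableSet (LL R) := by
  have : Continuous fun w : E3 => |w 0 + hh (w 1) (w 2)| := by unfold hh; fun_prop
  exact (isClosed_le this continuous_const).measurableSet

lemma coord_le (a : E3) (i : Fin 3) : |a i| ≤ ‖a‖ := by
  simpa using PiLp.norm_apply_le a i

lemma nu_ge (a : E3) (i : Fin 3) {s : ℝ} (hs : 0 < s) (h1 : ‖a‖ < 1) :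
    (ENNReal.ofReal ‖a‖) ^ (-s) ≤ nu s (a i) := by
  have hi := coord_le a i
  unfold nu
  rw [indicator_of_mem (by simpa using lt_of_le_of_lt hi h1)]
  unfold pw
  rw [ENNReal.rpow_neg, ENNReal.rpow_neg]
  apply ENNReal.inv_le_inv.2
  gcongr

lemma KK_near (a : E3) (h1 : ‖a‖ < 1) :
    KK a ≤ 2 * (nu (1 / 2) (a 0) * (nu (3 / 4) (a 1) * nu (3 / 4) (a 2))) := by
  by_cases h0 : a = 0
  · subst h0
    unfold KK
    simp
  have hp : 0 < ‖a‖ := norm_pos_iff.2 h0
  calc KK a ≤ 2 * ((ENNReal.ofReal ‖a‖) ^ (-(1 / 2) : ℝ) *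
        ((ENNReal.ofReal ‖a‖) ^ (-(3 / 4) : ℝ) * (ENNReal.ofReal ‖a‖) ^ (-(3 / 4) : ℝ))) := by
        have hne : ENNReal.ofReal ‖a‖ ≠ 0 := by simpa using h0
        have h2e : ∀ r : ℝ, (2 : ℝ≥0∞) * ENNReal.ofReal r = ENNReal.ofReal (2 * r) := by
          intro r
          rw [ENNReal.ofReal_mul (by norm_num)]; simp
        rw [← ENNReal.rpow_add _ _ hne ENNReal.ofReal_ne_top,
          ← ENNReal.rpow_add _ _ hne ENNReal.ofReal_ne_top, ENNReal.ofReal_rpow_of_pos hp, h2e]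
        unfold KK
        apply ENNReal.ofReal_le_ofReal
        have e : ‖a‖ ^ (-(1 / 2) + (-(3 / 4) + -(3 / 4)) : ℝ) = (‖a‖⁻¹) ^ 2 := by
          rw [show (-(1 / 2) + (-(3 / 4) + -(3 / 4)) : ℝ) = -((2 : ℕ) : ℝ) by norm_num,
            Real.rpow_neg hp.le, Real.rpow_natCast, inv_pow]
        rw [e]
        have h2 : 1 ≤ ‖a‖⁻¹ := (one_le_inv₀ hp).2 h1.le
        nlinarith
    _ ≤ _ := by
        gcongr
        · exact nu_ge a 0 (by norm_num) h1
        · exact nu_ge a 1 (by norm_num) h1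
        · exact nu_ge a 2 (by norm_num) h1

lemma KK_far (X w : E3) (R : ℝ) (h1 : 1 ≤ ‖X - w‖) (hw : w ∈ LL R) :
    KK (X - w) ≤ ENNReal.ofReal (2 * (R + 2)) * ENNReal.ofReal (1 / (1 + |X 0 + hh (w 1) (w 2)|)) := by
  have hw' : |w 0 + hh (w 1) (w 2)| ≤ R := hw
  have hR : 0 ≤ R := (abs_nonneg _).trans hw'
  rw [← ENNReal.ofReal_mul (by positivity)]
  unfold KK
  apply ENNReal.ofReal_le_ofReal
  have h0 := coord_le (X - w) 0
  have e : X 0 + hh (w 1) (w 2) = (X - w) 0 + (w 0 + hh (w 1) (w 2)) := by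
    simp only [PiLp.sub_apply]
    ring
  have h3 : |X 0 + hh (w 1) (w 2)| ≤ ‖X - w‖ + R := by
    rw [e]
    exact (abs_add_le _ _).trans (add_le_add h0 hw')
  have hp : 0 < ‖X - w‖ := by linarith
  have h4 : ‖X - w‖⁻¹ ≤ 1 := inv_le_one_of_one_le₀ h1
  have h5 : 0 < ‖X - w‖⁻¹ := by positivity
  have h6 : ‖X - w‖⁻¹ + (‖X - w‖⁻¹) ^ 2 ≤ 2 * ‖X - w‖⁻¹ := by nlinarith
  refine h6.trans ?_
  rw [mul_assoc]
  gcongr
  rw [mul_one_div, inv_eq_one_div, div_le_div_iff₀ hp (by positivity)]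
  nlinarith

/-- the constant of the three-dimensional estimate -/
noncomputable def CK (R : ℝ) : ℝ≥0∞ :=
  2 * ((∫⁻ u, nu (1 / 2) u) * ((∫⁻ u, nu (3 / 4) u) * (∫⁻ u, nu (3 / 4) u))) +
    ENNReal.ofReal (2 * (R + 2)) * (ENNReal.ofReal (2 * R) * MC)

lemma CK_fin (R : ℝ) : CK R < ⊤ := by
  unfold CK
  refine ENNReal.add_lt_top.2 ⟨?_, ?_⟩
  · refine ENNReal.mul_lt_top (by simp) (ENNReal.mul_lt_top (nu_fin (by norm_num))
      (ENNReal.mul_lt_top (nu_fin (by norm_num)) (nu_fin (by norm_num))))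
  · exact ENNReal.mul_lt_top ENNReal.ofReal_lt_top
      (ENNReal.mul_lt_top ENNReal.ofReal_lt_top MC_fin)

lemma prod3 (f g k : ℝ → ℝ≥0∞) (hf : Measurable f) (hg : Measurable g) (hk : Measurable k) :
    ∫⁻ y, ∫⁻ z, ∫⁻ x, f x * (g y * k z) = (∫⁻ x, f x) * ((∫⁻ x, g x) * ∫⁻ x, k x) := by
  have h1 : ∀ y z, ∫⁻ x, f x * (g y * k z) = (∫⁻ x, f x) * (g y * k z) :=
    fun y z => lintegral_mul_const _ hf
  simp only [h1]
  have h2 : ∀ y, ∫⁻ z, (∫⁻ x, f x) * (g y * k z) = (∫⁻ x, f x) * (g y * ∫⁻ z, k z) :=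
    fun y => by rw [lintegral_const_mul _ (hk.const_mul _), lintegral_const_mul _ hk]
  simp only [h2]
  rw [lintegral_const_mul _ (hg.mul_const _), lintegral_mul_const _ hg]

lemma prod2 (G : ℝ × ℝ → ℝ≥0∞) (hG : Measurable G) (a b : ℝ≥0∞) :
    ∫⁻ y, ∫⁻ z, a * (b * G (y, z)) = a * (b * ∫⁻ y, ∫⁻ z, G (y, z)) := by
  have m4 : ∀ y : ℝ, Measurable fun z : ℝ => G (y, z) := fun y =>
    hG.comp (measurable_const.prodMk measurable_id)
  have m5 : Measurable fun y : ℝ => ∫⁻ z : ℝ, G (y, z) := hG.lintegral_prod_right'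
  have h2 : ∀ y, ∫⁻ z, a * (b * G (y, z)) = a * (b * ∫⁻ z, G (y, z)) :=
    fun y => by rw [lintegral_const_mul _ ((m4 y).const_mul _), lintegral_const_mul _ (m4 y)]
  simp only [h2]
  rw [lintegral_const_mul _ (m5.const_mul _), lintegral_const_mul _ m5]

lemma estK (R : ℝ) (X : E3) : ∫⁻ w in LL R, KK (X - w) ≤ CK R := by
  have hmN : Measurable fun p : ℝ × (ℝ × ℝ) =>
      nu (1 / 2) (X 0 - p.1) * (nu (3 / 4) (X 1 - p.2.1) * nu (3 / 4) (X 2 - p.2.2)) := by
    refine ((nu_meas _).comp (by fun_prop)).mul (((nu_meas _).comp (by fun_prop)).mul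
      ((nu_meas _).comp (by fun_prop)))
  set S : Set (ℝ × (ℝ × ℝ)) := {p | |p.1 + hh p.2.1 p.2.2| ≤ R} with hS
  have hSm : MeasurableSet S := by
    have : Continuous fun p : ℝ × (ℝ × ℝ) => |p.1 + hh p.2.1 p.2.2| := by unfold hh; fun_prop
    exact (isClosed_le this continuous_const).measurableSet
  have hmF : Measurable (S.indicator fun p : ℝ × (ℝ × ℝ) =>
      ENNReal.ofReal (2 * (R + 2)) * ENNReal.ofReal (1 / (1 + |X 0 + hh p.2.1 p.2.2|))) := by
    refine Measurable.indicator ?_ hSm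
    have : Measurable fun p : ℝ × (ℝ × ℝ) => hh p.2.1 p.2.2 := by unfold hh; fun_prop
    fun_prop
  calc ∫⁻ w in LL R, KK (X - w) = ∫⁻ w, (LL R).indicator (fun w => KK (X - w)) w :=
        (lintegral_indicator (LL_meas R) _).symm
    _ ≤ ∫⁻ w : E3, (2 * (nu (1 / 2) (X 0 - w 0) * (nu (3 / 4) (X 1 - w 1) * nu (3 / 4) (X 2 - w 2))) +
        S.indicator (fun p : ℝ × (ℝ × ℝ) =>
      ENNReal.ofReal (2 * (R + 2)) * ENNReal.ofReal (1 / (1 + |X 0 + hh p.2.1 p.2.2|)))
          (w 0, (w 1, w 2))) := by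
        apply lintegral_mono
        intro w
        by_cases hw : w ∈ LL R
        · have hw2 : ((w 0, (w 1, w 2)) : ℝ × (ℝ × ℝ)) ∈ S := hw
          simp only [indicator_of_mem hw]
          rw [indicator_of_mem hw2]
          rcases lt_or_ge ‖X - w‖ 1 with h | h
          · exact (KK_near _ h).trans le_self_add
          · exact (KK_far X w R h hw).trans le_add_self
        · simp only [indicator_of_notMem hw]
          exact zero_le
    _ = 2 * (∫⁻ w : E3, (nu (1 / 2) (X 0 - w 0) * (nu (3 / 4) (X 1 - w 1) *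
          nu (3 / 4) (X 2 - w 2)))) + ∫⁻ w : E3, S.indicator (fun p : ℝ × (ℝ × ℝ) =>
      ENNReal.ofReal (2 * (R + 2)) * ENNReal.ofReal (1 / (1 + |X 0 + hh p.2.1 p.2.2|)))
          (w 0, (w 1, w 2)) := by
        have hcomp : Measurable fun w : E3 => ((w 0, (w 1, w 2)) : ℝ × (ℝ × ℝ)) := by fun_prop
        have h1 : Measurable fun w : E3 => nu (1 / 2) (X 0 - w 0) * (nu (3 / 4) (X 1 - w 1) *
          nu (3 / 4) (X 2 - w 2)) := hmN.comp hcomp
        rw [lintegral_add_left (h1.const_mul 2), lintegral_const_mul _ h1]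
    _ ≤ CK R := by
        unfold CK
        refine add_le_add ?_ ?_
        · gcongr
          apply le_of_eq
          rw [iter3 (fun p : ℝ × (ℝ × ℝ) =>
            nu (1 / 2) (X 0 - p.1) * (nu (3 / 4) (X 1 - p.2.1) * nu (3 / 4) (X 2 - p.2.2))) hmN]
          have m1 : ∀ (s : ℝ) (i : Fin 3), Measurable fun x : ℝ => nu s (X i - x) := fun s i =>
            (nu_meas s).comp (by fun_prop)
          rw [prod3 (fun x => nu (1 / 2) (X 0 - x)) (fun x => nu (3 / 4) (X 1 - x))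
            (fun x => nu (3 / 4) (X 2 - x)) (m1 _ 0) (m1 _ 1) (m1 _ 2), nu_int, nu_int, nu_int]
        · rw [iter3 _ hmF]
          have h2 : ∀ y z : ℝ, ∫⁻ x : ℝ, S.indicator (fun p : ℝ × (ℝ × ℝ) =>
              ENNReal.ofReal (2 * (R + 2)) * ENNReal.ofReal (1 / (1 + |X 0 + hh p.2.1 p.2.2|)))
              (x, (y, z)) ≤ ENNReal.ofReal (2 * (R + 2)) * (ENNReal.ofReal (2 * R) *
                ENNReal.ofReal (1 / (1 + |X 0 + hh y z|))) := by
            intro y z
            have h3 : ∀ x : ℝ, S.indicator (fun p : ℝ × (ℝ × ℝ) =>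
              ENNReal.ofReal (2 * (R + 2)) * ENNReal.ofReal (1 / (1 + |X 0 + hh p.2.1 p.2.2|)))
              (x, (y, z)) = (Icc (-hh y z - R) (-hh y z + R)).indicator (fun _ =>
                ENNReal.ofReal (2 * (R + 2)) * ENNReal.ofReal (1 / (1 + |X 0 + hh y z|))) x := by
              intro x
              have h4 : ((x, (y, z)) : ℝ × (ℝ × ℝ)) ∈ S ↔ x ∈ Icc (-hh y z - R) (-hh y z + R) := by
                simp only [hS, mem_ofPred_eq, abs_le, mem_Icc]
                constructor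
                · rintro ⟨h, h'⟩; constructor <;> linarith
                · rintro ⟨h, h'⟩; constructor <;> linarith
              by_cases hx : ((x, (y, z)) : ℝ × (ℝ × ℝ)) ∈ S
              · rw [indicator_of_mem hx, indicator_of_mem (h4.1 hx)]
              · rw [indicator_of_notMem hx, indicator_of_notMem (fun h => hx (h4.2 h))]
            simp_rw [h3]
            rw [lintegral_indicator measurableSet_Icc, setLIntegral_const, Real.volume_Icc]
            have h5 : -hh y z + R - (-hh y z - R) = 2 * R := by ring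
            rw [h5]
            apply le_of_eq
            ring
          have m3 : Measurable fun p : ℝ × ℝ => ENNReal.ofReal (1 / (1 + |X 0 + hh p.1 p.2|)) := by
            unfold hh
            fun_prop
          calc _ ≤ ∫⁻ y : ℝ, ∫⁻ z : ℝ, ENNReal.ofReal (2 * (R + 2)) * (ENNReal.ofReal (2 * R) *
                ENNReal.ofReal (1 / (1 + |X 0 + hh y z|))) :=
                lintegral_mono fun y => lintegral_mono fun z => h2 y z
            _ = ENNReal.ofReal (2 * (R + 2)) * (ENNReal.ofReal (2 * R) *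
                ∫⁻ y : ℝ, ∫⁻ z : ℝ, ENNReal.ofReal (1 / (1 + |X 0 + hh y z|))) :=
                prod2 _ m3 _ _
            _ ≤ _ := by
                gcongr
                exact estC (X 0)

end Pool.Agent.H123R3
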