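import Pool.Agent.H123R3.Reg2
import Pool.Agent.Helper486.TP.NewtonLap

/-! # The equation -/

set_option autoImplicit false

open MeasureTheory Set Filter Topology Metric
open scoped ENNReal NNReal ContDiff Laplacian

namespace Pool.Agent.H123R3

open Pool.Agent.Helper486.TP (newton newton_laplacian nl_lap_eq int_parts newton_toReal lap_cont lap_add)

/-- basis vectors -/
noncomputable abbrev eb (i : Fin 3) : E3 := EuclideanSpace.basisFun (Fin 3) ℝ i

lemma D_smooth {ψ : E3 → ℝ} (h : ContDiff ℝ ∞ ψ) (v : E3) : ContDiff ℝ ∞ (fun z => fderiv ℝ ψ z v) :=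
  (h.fderiv_right (m := ∞) (by norm_cast)).clm_apply contDiff_const

lemma green2 {v φ : E3 → ℝ} (hv : ContDiff ℝ ∞ v) (hφ : ContDiff ℝ ∞ φ)
    (hs : HasCompactSupport φ) : ∫ x, v x * (Δ φ) x = ∫ x, (Δ v) x * φ x := by
  have e1 : ∀ x, v x * (Δ φ) x = ∑ i, v x * fderiv ℝ (fun z => fderiv ℝ φ z (eb i)) x (eb i) := by
    intro x
    rw [nl_lap_eq hφ, Finset.mul_sum]
  have e2 : ∀ x, (Δ v) x * φ x = ∑ i, fderiv ℝ (fun z => fderiv ℝ v z (eb i)) x (eb i) * φ x := by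
    intro x
    rw [nl_lap_eq hv, Finset.sum_mul]
  simp_rw [e1, e2]
  have hc1 : ∀ i, Continuous fun x => fderiv ℝ (fun z => fderiv ℝ φ z (eb i)) x (eb i) :=
    fun i => (D_smooth (D_smooth hφ _) _).continuous
  have hc2 : ∀ i, Continuous fun x => fderiv ℝ (fun z => fderiv ℝ v z (eb i)) x (eb i) :=
    fun i => (D_smooth (D_smooth hv _) _).continuous
  have hs1 : ∀ i, HasCompactSupport fun x => fderiv ℝ φ x (eb i) :=
    fun i => hs.fderiv_apply (𝕜 := ℝ) _
  have hs2 : ∀ i, HasCompactSupport fun x => fderiv ℝ (fun z => fderiv ℝ φ z (eb i)) x (eb i) :=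
    fun i => (hs1 i).fderiv_apply (𝕜 := ℝ) _
  rw [integral_finsetSum, integral_finsetSum]
  · apply Finset.sum_congr rfl
    intro i _
    rw [int_parts v (fun z => fderiv ℝ φ z (eb i)) (hv.of_le (by exact_mod_cast le_top))
      ((D_smooth hφ _).of_le (by exact_mod_cast le_top)) (hs1 i)]
    rw [int_parts (fun z => fderiv ℝ v z (eb i)) φ ((D_smooth hv _).of_le (by exact_mod_cast le_top))
      (hφ.of_le (by exact_mod_cast le_top)) hs, neg_neg]
  · intro i _
    exact ((hc2 i).mul hφ.continuous).integrable_of_hasCompactSupport hs.mul_left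
  · intro i _
    exact (hv.continuous.mul (hc1 i)).integrable_of_hasCompactSupport (hs2 i).mul_left

lemma NP_weak {c : ℝ} (hc : ∀ φ : E3 → ℝ, ContDiff ℝ ∞ φ → HasCompactSupport φ → ∀ a : E3,
      ∫ y, (newton a y).toReal * (Δ φ) y = -c * φ a) {R M : ℝ} {g : E3 → ℝ} (hg : Lay R M g)
    {φ : E3 → ℝ} (hφ : ContDiff ℝ ∞ φ) (hs : HasCompactSupport φ) :
    ∫ X, NP g X * (Δ φ) X = -c * ∫ w, g w * φ w := by
  have hΔc : Continuous (Δ φ) := lap_cont hφ
  have hΔs : HasCompactSupport (Δ φ) := Pool.Agent.Helper486.TP.lap_hasCompactSupport hs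
  have hΔi : Integrable (Δ φ) := hΔc.integrable_of_hasCompactSupport hΔs
  have hga : Lay R M (fun w => |g w|) := ⟨hg.meas.abs, fun w => by rw [abs_abs]; exact hg.bdd w,
    fun w hw => by rw [hg.supp w hw, abs_zero]⟩
  have hm : Measurable fun p : E3 × E3 => g p.2 * ‖p.1 - p.2‖⁻¹ * (Δ φ) p.1 := by
    have h1 := hg.meas
    have h2 := hΔc.measurable
    fun_prop
  have hi : Integrable (fun p : E3 × E3 => g p.2 * ‖p.1 - p.2‖⁻¹ * (Δ φ) p.1)
      ((volume : Measure E3).prod volume) := by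
    rw [integrable_prod_iff hm.aestronglyMeasurable]
    refine ⟨ae_of_all _ fun X => (hg.NP_int X).1.mul_const ((Δ φ) X), ?_⟩
    refine (hΔi.norm.mul_const (M * CR R)).mono' hm.aestronglyMeasurable.norm.integral_prod_right'
      (ae_of_all _ fun X => ?_)
    have e : ∀ w, ‖g w * ‖X - w‖⁻¹ * (Δ φ) X‖ = ‖(Δ φ) X‖ * (|g w| * ‖X - w‖⁻¹) := by
      intro w
      rw [norm_mul, norm_mul, Real.norm_eq_abs (g w), Real.norm_of_nonneg (by positivity : 0 ≤ ‖X - w‖⁻¹)]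
      ring
    simp only [e]
    rw [integral_const_mul, norm_mul, norm_norm]
    exact mul_le_mul_of_nonneg_left (hga.NP_int X).2 (norm_nonneg _)
  have e1 : ∀ X, NP g X * (Δ φ) X = ∫ w, g w * ‖X - w‖⁻¹ * (Δ φ) X := by
    intro X
    rw [integral_mul_const]; rfl
  simp_rw [e1]
  rw [integral_integral_swap hi]
  rw [← integral_const_mul]
  congr 1
  ext w
  have e2 : ∫ X, g w * ‖X - w‖⁻¹ * (Δ φ) X = g w * ∫ X, ‖X - w‖⁻¹ * (Δ φ) X := by
    rw [← integral_const_mul]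
    congr 1
    ext X
    ring
  rw [e2]
  have e3 : ∫ X, ‖X - w‖⁻¹ * (Δ φ) X = ∫ X, (newton w X).toReal * (Δ φ) X := by
    apply integral_congr_ae
    have hne : ∀ᵐ X : E3, X ≠ w := by rw [ae_iff]; simp
    filter_upwards [hne] with X hX
    rw [newton_toReal (n := 3) le_rfl w X hX]
    norm_num
    rw [Real.rpow_neg_one]
    simp
  rw [e3, hc φ hφ hs w]
  ring

lemma lap_of_fix {c : ℝ} (hc : ∀ φ : E3 → ℝ, ContDiff ℝ ∞ φ → HasCompactSupport φ → ∀ a : E3,
      ∫ y, (newton a y).toReal * (Δ φ) y = -c * φ a) {R M : ℝ} {g : E3 → ℝ} (hg : Lay R M g)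
    (hgc : Continuous g) {v : E3 → ℝ} (hv : ContDiff ℝ ∞ v) {κ : ℝ} (h : ∀ X, v X = -κ * NP g X)
    (X : E3) : (Δ v) X = κ * c * g X := by
  have hcont : Continuous fun X => (Δ v) X - κ * c * g X := (lap_cont hv).sub (continuous_const.mul hgc)
  have h1 : ∀ᵐ x : E3, (Δ v) x - κ * c * g x = 0 := by
    apply ae_eq_zero_of_integral_contDiff_smul_eq_zero hcont.locallyIntegrable
    intro φ hφ hs
    have i1 : Integrable fun x => (Δ v) x * φ x :=
      ((lap_cont hv).mul hφ.continuous).integrable_of_hasCompactSupport hs.mul_left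
    have i2 : Integrable fun x => g x * φ x :=
      (hgc.mul hφ.continuous).integrable_of_hasCompactSupport hs.mul_left
    have e : ∀ x, φ x • ((Δ v) x - κ * c * g x) = (Δ v) x * φ x - (κ * c) * (g x * φ x) := by
      intro x; rw [smul_eq_mul]; ring
    simp_rw [e]
    rw [integral_sub i1 (i2.const_mul _), integral_const_mul, ← green2 hv hφ hs]
    have e2 : ∀ x, v x * (Δ φ) x = -κ * (NP g x * (Δ φ) x) := by
      intro x; rw [h x]; ring
    simp_rw [e2]
    rw [integral_const_mul, NP_weak hc hg hφ hs]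
    ring
  have h2 : (fun X => (Δ v) X - κ * c * g X) = fun _ => (0 : ℝ) :=
    (hcont.ae_eq_iff_eq volume continuous_const).1 h1
  have : (Δ v) X - κ * c * g X = 0 := congrFun h2 X
  linarith

lemma fderiv_u0 (x v : E3) : fderiv ℝ u0 x v =
    v 0 + 3 * (x 1) ^ 2 * v 1 - 3 * ((x 2) ^ 2 * v 1 + 2 * x 1 * x 2 * v 2) := by
  have hc : ∀ i : Fin 3, HasFDerivAt (fun w : E3 => w i) (EuclideanSpace.proj i : E3 →L[ℝ] ℝ) x :=
    fun i => (EuclideanSpace.proj i : E3 →L[ℝ] ℝ).hasFDerivAt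
  have h := ((hc 0).add (((hc 1).pow 3).sub (((hc 1).const_mul 3).mul ((hc 2).pow 2))))
  have e : u0 = fun w : E3 => w 0 + (w 1 ^ 3 - 3 * w 1 * w 2 ^ 2) := rfl
  have h' : fderiv ℝ u0 x = _ := h.fderiv
  rw [h']
  simp
  ring

lemma lap_u0 (x : E3) : (Δ u0) x = 0 := by
  rw [nl_lap_eq u0_smooth]
  have hc : ∀ i : Fin 3, HasFDerivAt (fun w : E3 => w i) (EuclideanSpace.proj i : E3 →L[ℝ] ℝ) x :=
    fun i => (EuclideanSpace.proj i : E3 →L[ℝ] ℝ).hasFDerivAt
  rw [Fin.sum_univ_three]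
  have e0 : (fun z => fderiv ℝ u0 z (EuclideanSpace.basisFun (Fin 3) ℝ 0)) = fun _ => (1 : ℝ) := by
    ext z; rw [fderiv_u0]; simp
  have e1 : (fun z => fderiv ℝ u0 z (EuclideanSpace.basisFun (Fin 3) ℝ 1)) =
      fun z : E3 => 3 * z 1 ^ 2 - 3 * z 2 ^ 2 := by
    ext z; rw [fderiv_u0]; simp
  have e2 : (fun z => fderiv ℝ u0 z (EuclideanSpace.basisFun (Fin 3) ℝ 2)) =
      fun z : E3 => -6 * (z 1 * z 2) := by
    ext z; rw [fderiv_u0]; simp; ring
  rw [e0, e1, e2]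
  have h1 : HasFDerivAt (fun z : E3 => 3 * z 1 ^ 2 - 3 * z 2 ^ 2) _ x :=
    (((hc 1).pow 2).const_mul 3).sub (((hc 2).pow 2).const_mul 3)
  have h2 : HasFDerivAt (fun z : E3 => -6 * (z 1 * z 2)) _ x := ((hc 1).mul (hc 2)).const_mul (-6)
  rw [h1.fderiv, h2.fderiv]
  simp
  ring

lemma fderiv_scale {ψ : E3 → ℝ} (h : ContDiff ℝ ∞ ψ) (l : ℝ) (z v : E3) :
    fderiv ℝ (fun z => ψ (l • z)) z v = l * fderiv ℝ ψ (l • z) v := by
  have hd : HasFDerivAt ψ (fderiv ℝ ψ (l • z)) (l • z) :=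
    (h.differentiable (by norm_num)).differentiableAt.hasFDerivAt
  have h1 : HasFDerivAt (fun y : E3 => l • y) (l • ContinuousLinearMap.id ℝ E3) z :=
    (hasFDerivAt_id z).const_smul l
  have h2 : HasFDerivAt (fun z => ψ (l • z)) ((fderiv ℝ ψ (l • z)).comp
      (l • ContinuousLinearMap.id ℝ E3)) z := HasFDerivAt.comp z hd h1
  rw [h2.fderiv]
  simp

lemma lap_scale {ψ : E3 → ℝ} (h : ContDiff ℝ ∞ ψ) (l : ℝ) (z : E3) :
    (Δ (fun z => ψ (l • z))) z = l ^ 2 * (Δ ψ) (l • z) := by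
  have hs : ContDiff ℝ ∞ fun z : E3 => ψ (l • z) := h.comp (contDiff_const_smul l)
  rw [nl_lap_eq hs, nl_lap_eq h, Finset.mul_sum]
  apply Finset.sum_congr rfl
  intro i _
  have e : (fun z => fderiv ℝ (fun z => ψ (l • z)) z (EuclideanSpace.basisFun (Fin 3) ℝ i)) =
      fun z => l * (fun y => fderiv ℝ ψ y (EuclideanSpace.basisFun (Fin 3) ℝ i)) (l • z) := by
    ext z; rw [fderiv_scale h]
  rw [e]
  have hD := D_smooth h (EuclideanSpace.basisFun (Fin 3) ℝ i)
  have hd : DifferentiableAt ℝ (fun z => (fun y => fderiv ℝ ψ y (EuclideanSpace.basisFun (Fin 3) ℝ i))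
      (l • z)) z :=
    ((hD.comp (contDiff_const_smul l)).differentiable (by norm_num)).differentiableAt
  rw [fderiv_const_mul hd]
  change l * fderiv ℝ _ z _ = _
  rw [fderiv_scale hD]
  ring

end Pool.Agent.H123R3
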