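import Pool.Agent.H123R3.Lap

/-! # The topological type, and the failure of one-dimensionality -/

set_option autoImplicit false

open MeasureTheory Set Filter Topology Metric
open scoped ENNReal NNReal ContDiff Laplacian

namespace Pool.Agent.H123R3

/-- the first basis vector -/
noncomputable abbrev e0 : E3 := EuclideanSpace.single 0 1

/-- homeomorphisms shearing in the first direction -/
noncomputable def shear (p q : E3 → ℝ) (hp : Continuous p) (hq : Continuous q)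
    (h1 : ∀ X, q (X + p X • e0) = -p X) (h2 : ∀ X, p (X + q X • e0) = -q X) : E3 ≃ₜ E3 where
  toFun X := X + p X • e0
  invFun X := X + q X • e0
  left_inv X := by
    change (X + p X • e0) + q (X + p X • e0) • e0 = X
    rw [h1]; simp
  right_inv X := by
    change (X + q X • e0) + p (X + q X • e0) • e0 = X
    rw [h2]; simp
  continuous_toFun := by fun_prop
  continuous_invFun := by fun_prop

/-- the profile -/
noncomputable def Upr (α β s : ℝ) : ℝ := α * max s 0 - β * max (-s) 0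

lemma Upr_inv {α β : ℝ} (hα : 0 < α) (hβ : 0 < β) (s : ℝ) : Upr α β (Upr α⁻¹ β⁻¹ s) = s := by
  unfold Upr
  rcases le_total 0 s with h | h
  · rw [max_eq_left h, max_eq_right (by linarith : -s ≤ 0), mul_zero, sub_zero]
    have h1 : 0 ≤ α⁻¹ * s := by positivity
    rw [max_eq_left h1, max_eq_right (by linarith : -(α⁻¹ * s) ≤ 0)]
    field_simp
    ring
  · rw [max_eq_right h, max_eq_left (by linarith : 0 ≤ -s), mul_zero, zero_sub]
    have h1 : 0 ≤ β⁻¹ * (-s) := mul_nonneg (by positivity) (by linarith)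
    rw [max_eq_right (by linarith : -(β⁻¹ * -s) ≤ 0), neg_neg, max_eq_left h1]
    field_simp
    ring

lemma Upr_inv' {α β : ℝ} (hα : 0 < α) (hβ : 0 < β) (s : ℝ) : Upr α⁻¹ β⁻¹ (Upr α β s) = s := by
  have := Upr_inv (inv_pos.2 hα) (inv_pos.2 hβ) s
  rwa [inv_inv, inv_inv] at this

lemma Upr_cont (α β : ℝ) : Continuous (Upr α β) := by unfold Upr; fun_prop

/-- shear by the harmonic polynomial -/
noncomputable def Sh : E3 ≃ₜ E3 :=
  shear (fun X => hh (X 1) (X 2)) (fun X => -hh (X 1) (X 2)) (by unfold hh; fun_prop)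
    (by unfold hh; fun_prop) (fun X => by simp) (fun X => by simp)

/-- profile in the first coordinate -/
noncomputable def Qh (α β : ℝ) (hα : 0 < α) (hβ : 0 < β) : E3 ≃ₜ E3 :=
  shear (fun X => Upr α⁻¹ β⁻¹ (X 0) - X 0) (fun X => Upr α β (X 0) - X 0)
    (by have := Upr_cont α⁻¹ β⁻¹; fun_prop) (by have := Upr_cont α β; fun_prop)
    (fun X => by simp [Upr_inv hα hβ]) (fun X => by simp [Upr_inv' hα hβ])

/-- the Lipschitz perturbation -/
lemma exists_Ah {v : E3 → ℝ} (hv : ∀ X Y, |v X - v Y| ≤ 1 / 2 * ‖X - Y‖) :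
    ∃ A : E3 ≃ₜ E3, ∀ X, A X = X + v X • e0 := by
  have happ : ApproximatesLinearOn (fun X : E3 => X + v X • e0)
      ((ContinuousLinearEquiv.refl ℝ E3 : E3 ≃L[ℝ] E3) : E3 →L[ℝ] E3) univ (1 / 2 : ℝ≥0) := by
    intro X _ Y _
    have e : (X + v X • e0) - (Y + v Y • e0) -
        ((ContinuousLinearEquiv.refl ℝ E3 : E3 ≃L[ℝ] E3) : E3 →L[ℝ] E3) (X - Y) =
        (v X - v Y) • e0 := by
      simp only [ContinuousLinearEquiv.coe_refl, ContinuousLinearMap.coe_id', id_eq]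
      rw [sub_smul]
      abel
    simp only
    rw [e, norm_smul, Real.norm_eq_abs]
    have h1 : ‖e0‖ = 1 := by simp
    rw [h1, mul_one]
    simpa using hv X Y
  have hN : (1 / 2 : ℝ≥0) < ‖((ContinuousLinearEquiv.refl ℝ E3).symm : E3 →L[ℝ] E3)‖₊⁻¹ := by
    have : ‖((ContinuousLinearEquiv.refl ℝ E3).symm : E3 →L[ℝ] E3)‖₊ = 1 := by
      simp
    rw [this]
    norm_num
  refine ⟨happ.toHomeomorph _ (Or.inr hN), fun X => rfl⟩

/-- the topological type -/
lemma exists_Phi {v : E3 → ℝ} (hv : ∀ X Y, |v X - v Y| ≤ 1 / 2 * ‖X - Y‖) {α β : ℝ} (hα : 0 < α)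
    (hβ : 0 < β) {l : ℝ} (hl : l ≠ 0) :
    ∃ Φ : E3 ≃ₜ E3, ∀ X, u0 (l • X) + v (l • X) = Upr α β ((Φ X) 0) := by
  obtain ⟨A, hA⟩ := exists_Ah hv
  refine ⟨(((Homeomorph.smulOfNeZero l hl).trans A).trans Sh).trans (Qh α β hα hβ), fun X => ?_⟩
  simp only [Homeomorph.trans_apply]
  have h1 : (Homeomorph.smulOfNeZero l hl) X = l • X := rfl
  rw [h1]
  set Y := l • X
  have h2 : ∀ Z : E3, (Qh α β hα hβ Z) 0 = Upr α⁻¹ β⁻¹ (Z 0) := by
    intro Z
    change (Z + (Upr α⁻¹ β⁻¹ (Z 0) - Z 0) • e0) 0 = _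
    simp
  have h3 : ∀ Z : E3, (Sh Z) 0 = u0 Z := by
    intro Z
    change (Z + (hh (Z 1) (Z 2)) • e0) 0 = _
    simp [u0]
  rw [h2, Upr_inv hα hβ, h3, hA]
  unfold u0
  simp
  ring

/-- one-dimensional functions: functions of the first coordinate after a rigid motion -/
def OneDim (u : E3 → ℝ) : Prop :=
  ∃ (g : E3 ≃ᵃⁱ[ℝ] E3) (V : ℝ → ℝ), ∀ X, u X = V ((g X) 0)

lemma poly_zero {A B : ℝ} (h : ∀ t : ℝ, |t * A + t ^ 3 * B| ≤ 1) : A = 0 ∧ B = 0 := by
  have h1 : ∀ t : ℝ, |6 * (t ^ 3 * B)| ≤ 3 := by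
    intro t
    have e : 6 * (t ^ 3 * B) = ((2 * t) * A + (2 * t) ^ 3 * B) - 2 * (t * A + t ^ 3 * B) := by ring
    rw [e]
    refine (abs_sub _ _).trans ?_
    rw [abs_mul, abs_of_pos (show (0 : ℝ) < 2 by norm_num)]
    have := h t
    have := h (2 * t)
    linarith
  have hB : B = 0 := by
    by_contra hB
    have hp : 0 < |B| := abs_pos.2 hB
    obtain ⟨y, hi, hyB⟩ : ∃ y : ℝ, 0 < y ∧ y * |B| = 1 :=
      ⟨|B|⁻¹, by positivity, inv_mul_cancel₀ hp.ne'⟩
    have h2 := h1 (1 + y)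
    rw [abs_mul, abs_mul, abs_of_pos (show (0 : ℝ) < 6 by norm_num)] at h2
    have h3 : (1 + y) ≤ |(1 + y) ^ 3| := by
      rw [abs_of_pos (by positivity)]
      nlinarith [pow_pos hi 2, pow_pos hi 3]
    have h5 := mul_le_mul_of_nonneg_right h3 hp.le
    have h4 : (1 + y) * |B| = |B| + 1 := by rw [add_mul, hyB]; ring
    rw [h4] at h5
    linarith
  refine ⟨?_, hB⟩
  by_contra hA
  have h2 := h (2 / A)
  rw [hB, mul_zero, add_zero, div_mul_cancel₀ _ hA] at h2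
  norm_num at h2

lemma not_oneDim {v : E3 → ℝ} (hv : ∀ X, |v X| ≤ 1 / 2) {l : ℝ} (hl : l ≠ 0) :
    ¬ OneDim (fun X => u0 (l • X) + v (l • X)) := by
  rintro ⟨g, V, h⟩
  set L := g.linearIsometryEquiv with hL
  have hg : ∀ X, (g X) 0 = (L X) 0 + (g 0) 0 := by
    intro X
    have := g.map_vadd 0 X
    simp only [vadd_eq_add, add_zero] at this
    rw [this]
    rfl
  have key : ∀ d : E3, (L d) 0 = 0 → d 0 = 0 ∧ hh (d 1) (d 2) = 0 := by
    intro d hd
    apply poly_zero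
    intro t
    have h1 := h ((t / l) • d)
    have h2 := h 0
    have h3 : (g ((t / l) • d)) 0 = (g 0) 0 := by
      rw [hg, map_smul]
      simp [hd]
    rw [h3] at h1
    rw [← h2] at h1
    simp only [smul_zero] at h1
    rw [smul_smul, mul_div_cancel₀ _ hl] at h1
    have h4 : u0 (t • d) = t * d 0 + t ^ 3 * hh (d 1) (d 2) := by
      unfold u0 hh
      simp
      ring
    have h5 : u0 (0 : E3) = 0 := by unfold u0 hh; simp
    rw [h4, h5, zero_add] at h1
    have h6 : t * d 0 + t ^ 3 * hh (d 1) (d 2) = v 0 - v (t • d) := by linarith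
    rw [h6]
    refine (abs_sub _ _).trans ?_
    have := hv 0
    have := hv (t • d)
    linarith
  set x0 := (L (eb 0)) 0 with hx0
  set x1 := (L (eb 1)) 0 with hx1
  set x2 := (L (eb 2)) 0 with hx2
  have k1 := key ((-x1) • eb 0 + x0 • eb 1) (by
    rw [map_add, map_smul, map_smul]
    simp only [PiLp.add_apply, PiLp.smul_apply, smul_eq_mul]
    rw [← hx0, ← hx1]
    ring)
  have hx1' : x1 = 0 := by
    have := k1.1
    simpa using this
  have k2 := key (eb 1) hx1'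
  have := k2.2
  unfold hh at this
  simp at this

open Pool.Agent.Helper486.TP (newton newton_laplacian lap_add) in
theorem main' (f : ℝ → ℝ) (hf : ContDiff ℝ ∞ f) (hs : HasCompactSupport f) (ha : 0 < ∫ t, f t) :
    ∃ u : E3 → ℝ, ContDiff ℝ ∞ u ∧ (∀ X, (Δ u) X = f (u X)) ∧
      (∃ (α β : ℝ) (Φ : E3 ≃ₜ E3), 0 < α ∧ 0 < β ∧ α ^ 2 - β ^ 2 = 2 * ∫ t, f t ∧
        ∀ X, u X = α * max ((Φ X) 0) 0 - β * max (-((Φ X) 0)) 0) ∧ ¬ OneDim u := by
  obtain ⟨c, hc0, hc⟩ := newton_laplacian (n := 3) le_rfl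
  obtain ⟨M, hM⟩ := hs.exists_bound_of_continuous hf.continuous
  have hM0 : 0 ≤ M := (norm_nonneg _).trans (hM 0)
  obtain ⟨ρ, hρ⟩ := hs.isCompact.isBounded.subset_closedBall (0 : ℝ)
  have hρ' : ∀ t, ρ < |t| → f t = 0 := by
    intro t ht
    by_contra hne
    have := hρ (subset_tsupport f hne)
    rw [mem_closedBall, dist_zero_right, Real.norm_eq_abs] at this
    linarith
  have hf1 : ContDiff ℝ 1 f := hf.of_le (by exact_mod_cast le_top)
  obtain ⟨Λ, hΛ⟩ := hf1.lipschitzWith_of_hasCompactSupport hs one_ne_zero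
  have hΛ' : ∀ s t, |f s - f t| ≤ (Λ : ℝ) * |s - t| := by
    intro s t
    have := hΛ.dist_le_mul s t
    rwa [Real.dist_eq, Real.dist_eq] at this
  set C := CR (ρ + 1) with hC
  have hC0 : 0 ≤ C := CR_nonneg _
  set D := 2 * ((M + Λ) * C + 1) with hD
  have hD0 : 0 < D := by positivity
  set κ := D⁻¹ with hκ
  have hκ0 : 0 < κ := by positivity
  have hle : ∀ b : ℝ, b ≤ (M + Λ) * C → κ * b ≤ 1 / 2 := by
    intro b hb
    rw [hκ, inv_mul_le_iff₀ hD0, hD]
    linarith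
  have hΛ0 : (0 : ℝ) ≤ Λ := Λ.coe_nonneg
  have k1 : M * C ≤ (M + Λ) * C := by nlinarith [mul_nonneg hΛ0 hC0]
  have k2 : Λ * C ≤ (M + Λ) * C := by nlinarith [mul_nonneg hM0 hC0]
  obtain ⟨v, hvc, hvb, hvl, hvf, hvL⟩ := exists_fix hf.continuous hρ' hM hΛ0 hΛ' hκ0
    (hle (M * C) k1) (hle (Λ * C) k2)
  have hvs := smooth_of_fix hf hvc hvL hvf
  have hW : ContDiff ℝ ∞ fun w => u0 w + v w := u0_smooth.add hvs
  have hlapv := lap_of_fix hc hvL (hf.continuous.comp (u0_cont.add hvc)) hvs hvf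
  have hlapW : ∀ X, (Δ (fun w => u0 w + v w)) X = κ * c * f (u0 X + v X) := by
    intro X
    rw [lap_add u0_smooth hvs, lap_u0, zero_add, hlapv]
  set l := (√(κ * c))⁻¹ with hl
  have hkc : 0 < κ * c := by positivity
  have hsq : 0 < √(κ * c) := Real.sqrt_pos.2 hkc
  have hl0 : 0 < l := by positivity
  have hl2 : l ^ 2 * (κ * c) = 1 := by
    rw [hl, inv_pow, Real.sq_sqrt hkc.le, inv_mul_cancel₀ hkc.ne']
  set a := ∫ t, f t with haa
  set α := √(1 + 2 * a) with hα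
  have hα0 : 0 < α := Real.sqrt_pos.2 (by linarith)
  obtain ⟨Φ, hΦ⟩ := exists_Phi hvl hα0 one_pos hl0.ne'
  refine ⟨fun X => u0 (l • X) + v (l • X), hW.comp (contDiff_const_smul l), fun X => ?_,
    ⟨α, 1, Φ, hα0, one_pos, ?_, hΦ⟩, not_oneDim hvb hl0.ne'⟩
  · have := lap_scale hW l X
    rw [hlapW] at this
    rw [this, ← mul_assoc, hl2, one_mul]
  · rw [hα, Real.sq_sqrt (by linarith)]
    ring

end Pool.Agent.H123R3
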