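import Pool.Agent.H123R3.Est3

/-! # Potentials of functions supported in a layer, and the fixed point -/

set_option autoImplicit false

open MeasureTheory Set Filter Topology Metric
open scoped ENNReal NNReal ContDiff

namespace Pool.Agent.H123R3

/-- the real constant -/
noncomputable def CR (R : ℝ) : ℝ := (CK R).toReal

lemma CR_nonneg (R : ℝ) : 0 ≤ CR R := ENNReal.toReal_nonneg

/-- bounded measurable functions vanishing outside a layer -/
structure Lay (R M : ℝ) (g : E3 → ℝ) : Prop where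
  meas : Measurable g
  bdd : ∀ w, |g w| ≤ M
  supp : ∀ w, w ∉ LL R → g w = 0

/-- the real kernel -/
noncomputable def kk (a : E3) : ℝ := ‖a‖⁻¹ + (‖a‖⁻¹) ^ 2

lemma kk_nonneg (a : E3) : 0 ≤ kk a := by unfold kk; positivity

lemma kk_meas : Measurable kk := by unfold kk; fun_prop

lemma kk_int (R : ℝ) (X : E3) : IntegrableOn (fun w => kk (X - w)) (LL R) := by
  have hm : Measurable fun w : E3 => kk (X - w) := kk_meas.comp (by fun_prop)
  refine ⟨hm.aestronglyMeasurable, ?_⟩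
  rw [hasFiniteIntegral_iff_norm]
  refine lt_of_le_of_lt ?_ (lt_of_le_of_lt (estK R X) (CK_fin R))
  apply le_of_eq
  congr 1
  ext w
  rw [Real.norm_of_nonneg (kk_nonneg _)]
  rfl

lemma kk_le (R : ℝ) (X : E3) : ∫ w in LL R, kk (X - w) ≤ CR R := by
  have hm : Measurable fun w : E3 => kk (X - w) := kk_meas.comp (by fun_prop)
  rw [integral_eq_lintegral_of_nonneg_ae (ae_of_all _ fun w => kk_nonneg _)
    hm.aestronglyMeasurable]
  exact ENNReal.toReal_mono (CK_fin R).ne (estK R X)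

variable {F : Type*} [NormedAddCommGroup F] [NormedSpace ℝ F]

lemma Lay.M_nonneg {R M : ℝ} {g : E3 → ℝ} (hg : Lay R M g) : 0 ≤ M := (abs_nonneg _).trans (hg.bdd 0)

lemma Lay.norm_le {R M : ℝ} {g : E3 → ℝ} (hg : Lay R M g) {k : E3 → F} {b : E3 → ℝ}
    (w : E3) (h : ‖k w‖ ≤ b w) : ‖g w • k w‖ ≤ (LL R).indicator (fun w => M * b w) w := by
  by_cases hw : w ∈ LL R
  · rw [indicator_of_mem hw, norm_smul, Real.norm_eq_abs]
    exact mul_le_mul (hg.bdd w) h (norm_nonneg _) hg.M_nonneg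
  · rw [indicator_of_notMem hw, hg.supp w hw]; simp

lemma Lay.integrable_aux {R M : ℝ} {g : E3 → ℝ} (hg : Lay R M g) {k : E3 → F} {b : E3 → ℝ}
    (hbi : IntegrableOn b (LL R))
    (hk : ∀ᵐ w, ‖k w‖ ≤ b w) (hm : AEStronglyMeasurable k) :
    Integrable (fun w => g w • k w) ∧ ‖∫ w, g w • k w‖ ≤ M * ∫ w in LL R, b w := by
  have hi : Integrable ((LL R).indicator (fun w => M * b w)) := by
    rw [integrable_indicator_iff (LL_meas R)]
    exact hbi.const_mul M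
  have hle : ∀ᵐ w, ‖g w • k w‖ ≤ (LL R).indicator (fun w => M * b w) w := by
    filter_upwards [hk] with w hw
    exact hg.norm_le w hw
  refine ⟨hi.mono' (hg.meas.aestronglyMeasurable.smul hm) hle, ?_⟩
  refine (norm_integral_le_of_norm_le hi hle).trans (le_of_eq ?_)
  rw [integral_indicator (LL_meas R), integral_const_mul]

lemma Lay.integrable {R M : ℝ} {g : E3 → ℝ} (hg : Lay R M g) {k : E3 → F} {B : ℝ} (hB : 0 ≤ B)
    (hk : ∀ a, ‖k a‖ ≤ B * kk a) (hm : StronglyMeasurable k) (X : E3) :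
    Integrable (fun w => g w • k (X - w)) ∧ ‖∫ w, g w • k (X - w)‖ ≤ M * (B * CR R) := by
  have h1 := hg.integrable_aux (k := fun w => k (X - w)) (b := fun w => B * kk (X - w))
    ((kk_int R X).const_mul B)
    (ae_of_all _ fun w => hk _) ((hm.comp_measurable (by fun_prop)).aestronglyMeasurable)
  refine ⟨h1.1, h1.2.trans ?_⟩
  rw [integral_const_mul]
  exact mul_le_mul_of_nonneg_left (mul_le_mul_of_nonneg_left (kk_le R X) hB) hg.M_nonneg

/-- the Newton potential, unnormalised -/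
noncomputable def NP (g : E3 → ℝ) (X : E3) : ℝ := ∫ w, g w * ‖X - w‖⁻¹

lemma inv_bound (a : E3) : ‖(‖a‖⁻¹ : ℝ)‖ ≤ 1 * kk a := by
  rw [one_mul, Real.norm_of_nonneg (by positivity)]
  unfold kk
  have : 0 ≤ (‖a‖⁻¹) ^ 2 := by positivity
  linarith

lemma Lay.NP_int {R M : ℝ} {g : E3 → ℝ} (hg : Lay R M g) (X : E3) :
    Integrable (fun w => g w * ‖X - w‖⁻¹) ∧ |NP g X| ≤ M * CR R := by
  have := hg.integrable (k := fun a : E3 => ‖a‖⁻¹) (B := 1) zero_le_one inv_bound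
    (by
      apply Measurable.stronglyMeasurable
      fun_prop) X
  simpa [NP] using this

lemma inv_sub_inv_le (a b : E3) (ha : a ≠ 0) (hb : b ≠ 0) :
    |‖a‖⁻¹ - ‖b‖⁻¹| ≤ ‖a - b‖ * (1 / 2 * (kk a + kk b)) := by
  have ha' : 0 < ‖a‖ := norm_pos_iff.2 ha
  have hb' : 0 < ‖b‖ := norm_pos_iff.2 hb
  have e : ‖a‖⁻¹ - ‖b‖⁻¹ = (‖b‖ - ‖a‖) * (‖a‖⁻¹ * ‖b‖⁻¹) := by field_simp
  rw [e, abs_mul, abs_of_pos (by positivity : 0 < ‖a‖⁻¹ * ‖b‖⁻¹)]
  have h1 : |‖b‖ - ‖a‖| ≤ ‖a - b‖ := by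
    rw [abs_sub_comm]; exact abs_norm_sub_norm_le a b
  refine mul_le_mul h1 ?_ (by positivity) (norm_nonneg _)
  unfold kk
  have h3 : 0 < ‖a‖⁻¹ := by positivity
  have h4 : 0 < ‖b‖⁻¹ := by positivity
  nlinarith [sq_nonneg (‖a‖⁻¹ - ‖b‖⁻¹)]

lemma Lay.NP_lip {R M : ℝ} {g : E3 → ℝ} (hg : Lay R M g) (X Y : E3) :
    |NP g X - NP g Y| ≤ M * CR R * ‖X - Y‖ := by
  have h1 : NP g X - NP g Y = ∫ w, g w • (‖X - w‖⁻¹ - ‖Y - w‖⁻¹) := by
    unfold NP
    rw [← integral_sub (hg.NP_int X).1 (hg.NP_int Y).1]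
    congr 1
    ext w
    rw [smul_eq_mul]; ring
  rw [h1]
  have hmk : ∀ X : E3, Measurable fun w : E3 => ‖X - w‖⁻¹ := fun X => by fun_prop
  have hne : ∀ X : E3, ∀ᵐ w : E3, X - w ≠ 0 := by
    intro X
    have : ∀ᵐ w : E3, w ≠ X := by rw [ae_iff]; simp
    filter_upwards [this] with w hw
    exact sub_ne_zero.2 (Ne.symm hw)
  have h2 := hg.integrable_aux (k := fun w => ‖X - w‖⁻¹ - ‖Y - w‖⁻¹)
    (b := fun w => ‖X - Y‖ * (1 / 2 * (kk (X - w) + kk (Y - w))))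
    ((((kk_int R X).add (kk_int R Y)).const_mul (1 / 2)).const_mul ‖X - Y‖) (by
      filter_upwards [hne X, hne Y] with w hX hY
      have := inv_sub_inv_le (X - w) (Y - w) hX hY
      rwa [sub_sub_sub_cancel_right] at this)
    ((hmk X).sub (hmk Y)).aestronglyMeasurable
  refine h2.2.trans ?_
  rw [integral_const_mul, integral_const_mul, integral_add (kk_int R X) (kk_int R Y)]
  have h3 := kk_le R X
  have h4 := kk_le R Y
  have h5 := hg.M_nonneg
  have h6 : ‖X - Y‖ * (1 / 2 * ((∫ w in LL R, kk (X - w)) + ∫ w in LL R, kk (Y - w))) ≤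
      ‖X - Y‖ * CR R := by
    apply mul_le_mul_of_nonneg_left _ (norm_nonneg _)
    linarith
  calc _ ≤ M * (‖X - Y‖ * CR R) := mul_le_mul_of_nonneg_left h6 h5
    _ = _ := by ring

/-- the unperturbed function -/
def u0 (w : E3) : ℝ := w 0 + hh (w 1) (w 2)

lemma u0_cont : Continuous u0 := by unfold u0 hh; fun_prop

lemma LL_iff (R : ℝ) (w : E3) : w ∈ LL R ↔ |u0 w| ≤ R := Iff.rfl

/-- the truncation -/
noncomputable def tr (t : ℝ) : ℝ := max (-1) (min 1 t)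

lemma tr_cont : Continuous tr := by unfold tr; fun_prop

lemma tr_le (t : ℝ) : |tr t| ≤ 1 := by
  unfold tr
  rw [abs_le]
  exact ⟨le_max_left _ _, max_le (by norm_num) (min_le_left _ _)⟩

lemma tr_lip (s t : ℝ) : |tr s - tr t| ≤ |s - t| := by
  unfold tr
  have h1 := abs_max_sub_max_le_max (-1 : ℝ) (min 1 s) (-1) (min 1 t)
  have h2 := abs_min_sub_min_le_max (1 : ℝ) s 1 t
  have h3 : max |(-1 : ℝ) - -1| |min 1 s - min 1 t| = |min 1 s - min 1 t| := by
    rw [sub_self, abs_zero]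
    exact max_eq_right (abs_nonneg _)
  have h4 : max |(1 : ℝ) - 1| |s - t| = |s - t| := by
    rw [sub_self, abs_zero]
    exact max_eq_right (abs_nonneg _)
  rw [h3] at h1
  rw [h4] at h2
  exact h1.trans h2

lemma tr_eq (t : ℝ) (h : |t| ≤ 1) : tr t = t := by
  rw [abs_le] at h
  unfold tr
  rw [min_eq_right h.2, max_eq_right h.1]

/-- the nonlinear right-hand side -/
noncomputable def GG (f : ℝ → ℝ) (v : E3 → ℝ) (w : E3) : ℝ := f (u0 w + tr (v w))

lemma GG_cont {f : ℝ → ℝ} (hf : Continuous f) {v : E3 → ℝ} (hv : Continuous v) :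
    Continuous (GG f v) := hf.comp (u0_cont.add (tr_cont.comp hv))

lemma GG_zero {f : ℝ → ℝ} {ρ : ℝ} (hρ : ∀ t, ρ < |t| → f t = 0) (v : E3 → ℝ) (w : E3)
    (hw : w ∉ LL (ρ + 1)) : GG f v w = 0 := by
  apply hρ
  rw [LL_iff, not_le] at hw
  have h1 := tr_le (v w)
  have h2 : |u0 w| ≤ |u0 w + tr (v w)| + |tr (v w)| := by
    calc |u0 w| = |(u0 w + tr (v w)) - tr (v w)| := by ring_nf
      _ ≤ _ := abs_sub _ _
  linarith

lemma GG_lay {f : ℝ → ℝ} (hf : Continuous f) {ρ M : ℝ} (hρ : ∀ t, ρ < |t| → f t = 0)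
    (hM : ∀ t, |f t| ≤ M) {v : E3 → ℝ} (hv : Continuous v) : Lay (ρ + 1) M (GG f v) where
  meas := (GG_cont hf hv).measurable
  bdd := fun w => hM _
  supp := fun w hw => GG_zero hρ v w hw

lemma GG_sub_lay {f : ℝ → ℝ} (hf : Continuous f) {ρ Λ : ℝ} (hρ : ∀ t, ρ < |t| → f t = 0)
    (hΛ0 : 0 ≤ Λ) (hΛ : ∀ s t, |f s - f t| ≤ Λ * |s - t|) {v v' : E3 → ℝ} (hv : Continuous v)
    (hv' : Continuous v') {d : ℝ} (hd : ∀ w, |v w - v' w| ≤ d) :
    Lay (ρ + 1) (Λ * d) (fun w => GG f v w - GG f v' w) where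
  meas := ((GG_cont hf hv).sub (GG_cont hf hv')).measurable
  bdd := fun w => by
    refine (hΛ _ _).trans (mul_le_mul_of_nonneg_left ?_ hΛ0)
    rw [add_sub_add_left_eq_sub]
    exact (tr_lip _ _).trans (hd w)
  supp := fun w hw => by rw [GG_zero hρ v w hw, GG_zero hρ v' w hw, sub_zero]

open BoundedContinuousFunction in
lemma exists_fix {f : ℝ → ℝ} (hf : Continuous f) {ρ M Λ : ℝ} (hρ : ∀ t, ρ < |t| → f t = 0)
    (hM : ∀ t, |f t| ≤ M) (hΛ0 : 0 ≤ Λ) (hΛ : ∀ s t, |f s - f t| ≤ Λ * |s - t|)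
    {κ : ℝ} (hκ : 0 < κ) (h1 : κ * (M * CR (ρ + 1)) ≤ 1 / 2)
    (h2 : κ * (Λ * CR (ρ + 1)) ≤ 1 / 2) :
    ∃ v : E3 → ℝ, Continuous v ∧ (∀ X, |v X| ≤ 1 / 2) ∧ (∀ X Y, |v X - v Y| ≤ 1 / 2 * ‖X - Y‖) ∧
      (∀ X, v X = -κ * NP (fun w => f (u0 w + v w)) X) ∧
      Lay (ρ + 1) M (fun w => f (u0 w + v w)) := by
  have hlay : ∀ v : E3 →ᵇ ℝ, Lay (ρ + 1) M (GG f v) := fun v => GG_lay hf hρ hM v.continuous
  have hbd : ∀ v : E3 →ᵇ ℝ, ∀ X, |-κ * NP (GG f v) X| ≤ 1 / 2 := by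
    intro v X
    rw [abs_mul, abs_neg, abs_of_pos hκ]
    exact (mul_le_mul_of_nonneg_left ((hlay v).NP_int X).2 hκ.le).trans h1
  have hlip : ∀ v : E3 →ᵇ ℝ, ∀ X Y, |-κ * NP (GG f v) X - -κ * NP (GG f v) Y| ≤ 1 / 2 * ‖X - Y‖ := by
    intro v X Y
    rw [← mul_sub, abs_mul, abs_neg, abs_of_pos hκ]
    calc κ * |NP (GG f v) X - NP (GG f v) Y| ≤ κ * (M * CR (ρ + 1) * ‖X - Y‖) :=
          mul_le_mul_of_nonneg_left ((hlay v).NP_lip X Y) hκ.le
      _ = κ * (M * CR (ρ + 1)) * ‖X - Y‖ := by ring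
      _ ≤ _ := mul_le_mul_of_nonneg_right h1 (norm_nonneg _)
  have hcont : ∀ v : E3 →ᵇ ℝ, Continuous fun X => -κ * NP (GG f v) X := by
    intro v
    have : LipschitzWith (1 / 2) fun X => -κ * NP (GG f v) X := by
      apply LipschitzWith.of_dist_le_mul
      intro X Y
      rw [Real.dist_eq, dist_eq_norm]
      simpa using hlip v X Y
    exact this.continuous
  set T : (E3 →ᵇ ℝ) → (E3 →ᵇ ℝ) := fun v =>
    BoundedContinuousFunction.ofNormedAddCommGroup (fun X => -κ * NP (GG f v) X) (hcont v) (1 / 2)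
      (fun X => by rw [Real.norm_eq_abs]; exact hbd v X) with hT
  have hTc : ContractingWith (1 / 2 : ℝ≥0) T := by
    refine ⟨by norm_num, ?_⟩
    apply LipschitzWith.of_dist_le_mul
    intro v v'
    rw [BoundedContinuousFunction.dist_le (by positivity)]
    intro X
    rw [Real.dist_eq]
    simp only [hT, BoundedContinuousFunction.coe_ofNormedAddCommGroup]
    rw [← mul_sub, abs_mul, abs_neg, abs_of_pos hκ]
    have hd : ∀ w, |v w - v' w| ≤ dist v v' := by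
      intro w
      rw [← Real.dist_eq]
      exact BoundedContinuousFunction.dist_coe_le_dist w
    have hl := GG_sub_lay hf hρ hΛ0 hΛ v.continuous v'.continuous hd
    have e : NP (GG f v) X - NP (GG f v') X = NP (fun w => GG f v w - GG f v' w) X := by
      unfold NP
      rw [← integral_sub ((hlay v).NP_int X).1 ((hlay v').NP_int X).1]
      congr 1
      ext w
      ring
    rw [e]
    calc κ * |NP (fun w => GG f v w - GG f v' w) X| ≤ κ * (Λ * dist v v' * CR (ρ + 1)) :=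
          mul_le_mul_of_nonneg_left (hl.NP_int X).2 hκ.le
      _ = κ * (Λ * CR (ρ + 1)) * dist v v' := by ring
      _ ≤ 1 / 2 * dist v v' := mul_le_mul_of_nonneg_right h2 dist_nonneg
      _ = _ := by norm_num
  set v := hTc.fixedPoint T with hv
  have hfix : T v = v := hTc.fixedPoint_isFixedPt
  have hX : ∀ X, v X = -κ * NP (GG f v) X := by
    intro X
    conv_lhs => rw [← hfix]
    rfl
  have hv1 : ∀ X, |v X| ≤ 1 / 2 := fun X => by rw [hX X]; exact hbd v X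
  have hG : GG f v = fun w => f (u0 w + v w) := by
    ext w
    unfold GG
    rw [tr_eq _ ((hv1 w).trans (by norm_num))]
  refine ⟨v, v.continuous, hv1, fun X Y => ?_, fun X => ?_, ?_⟩
  · rw [hX X, hX Y]; exact hlip v X Y
  · rw [← hG]; exact hX X
  · rw [← hG]; exact hlay v

end Pool.Agent.H123R3
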