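import Pool.Agent.H123R3.Pot

/-! # Regularity: far kernels -/

set_option autoImplicit false

open MeasureTheory Set Filter Topology Metric
open scoped ENNReal NNReal ContDiff

namespace Pool.Agent.H123R3

/-- smooth kernels, zero near the origin and homogeneous of degree `-m` outside the unit ball -/
structure Far {F : Type} [NormedAddCommGroup F] [NormedSpace ℝ F] (m : ℕ) (k : E3 → F) : Prop where
  smooth : ContDiff ℝ ∞ k
  zero : ∀ x, ‖x‖ < 1 / 2 → k x = 0
  hom : ∀ (x : E3) (t : ℝ), 1 < ‖x‖ → 1 ≤ t → t ^ m • k (t • x) = k x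

variable {F : Type} [NormedAddCommGroup F] [NormedSpace ℝ F]

lemma Far.fderiv {m : ℕ} {k : E3 → F} (hk : Far m k) : Far (m + 1) (fderiv ℝ k) where
  smooth := hk.smooth.fderiv_right (m := ∞) (by norm_cast)
  zero := fun x hx => by
    have h : k =ᶠ[𝓝 x] fun _ => (0 : F) := by
      have : {y : E3 | ‖y‖ < 1 / 2} ∈ 𝓝 x :=
        (isOpen_lt continuous_norm continuous_const).mem_nhds hx
      filter_upwards [this] with y hy
      exact hk.zero y hy
    rw [h.fderiv_eq]
    simp
  hom := fun x t hx ht => by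
    have h : k =ᶠ[𝓝 x] fun y => t ^ m • k (t • y) := by
      have : {y : E3 | 1 < ‖y‖} ∈ 𝓝 x :=
        (isOpen_lt continuous_const continuous_norm).mem_nhds hx
      filter_upwards [this] with y hy
      exact (hk.hom y t hy ht).symm
    have hd : HasFDerivAt k (_root_.fderiv ℝ k (t • x)) (t • x) :=
      (hk.smooth.differentiable (by norm_num)).differentiableAt.hasFDerivAt
    have h1 : HasFDerivAt (fun y : E3 => t • y) (t • ContinuousLinearMap.id ℝ E3) x :=
      (hasFDerivAt_id x).const_smul t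
    have h2 : HasFDerivAt (fun y : E3 => t ^ m • k (t • y))
        (t ^ m • ((_root_.fderiv ℝ k (t • x)).comp (t • ContinuousLinearMap.id ℝ E3))) x :=
      (HasFDerivAt.comp x hd h1).const_smul (t ^ m)
    rw [h.fderiv_eq, h2.fderiv]
    ext v
    simp [pow_succ, mul_smul]

lemma Far.bound {m : ℕ} (hm : 1 ≤ m) {k : E3 → F} (hk : Far m k) :
    ∃ B : ℝ, 0 ≤ B ∧ ∀ a, ‖k a‖ ≤ B * kk a := by
  obtain ⟨C, hC⟩ := (isCompact_closedBall (0 : E3) 2).exists_bound_of_continuousOn
    hk.smooth.continuous.continuousOn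
  have hC0 : 0 ≤ C := (norm_nonneg _).trans (hC 0 (by simp))
  refine ⟨2 * C, by positivity, fun a => ?_⟩
  by_cases h1 : ‖a‖ < 1 / 2
  · rw [hk.zero a h1, norm_zero]
    exact mul_nonneg (by positivity) (kk_nonneg a)
  have h1' : 1 / 2 ≤ ‖a‖ := not_lt.1 h1
  have hp : 0 < ‖a‖ := by linarith
  have h3 : ‖a‖⁻¹ ≤ kk a := by
    unfold kk
    have : 0 ≤ (‖a‖⁻¹) ^ 2 := by positivity
    linarith
  suffices h : ‖k a‖ ≤ 2 * C * ‖a‖⁻¹ from
    h.trans (mul_le_mul_of_nonneg_left h3 (by positivity))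
  by_cases h2 : ‖a‖ ≤ 2
  · refine (hC a (by simpa using h2)).trans ?_
    have : 1 ≤ 2 * ‖a‖⁻¹ := by
      rw [← div_eq_mul_inv, one_le_div hp]; exact h2
    nlinarith
  · have h2' : 2 < ‖a‖ := not_le.1 h2
    set t := ‖a‖ / 2 with ht
    have ht1 : 1 ≤ t := by rw [ht]; linarith
    set y := t⁻¹ • a with hy
    have ht0 : 0 < t := by linarith
    have hyn : ‖y‖ = 2 := by
      rw [hy, norm_smul, norm_inv, Real.norm_of_nonneg ht0.le, ht]
      field_simp
    have hay : t • y = a := by rw [hy, smul_smul, mul_inv_cancel₀ ht0.ne', one_smul]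
    have h4 := hk.hom y t (by rw [hyn]; norm_num) ht1
    rw [hay] at h4
    have h5 : t ^ m * ‖k a‖ ≤ C := by
      have := congrArg norm h4
      rw [norm_smul, norm_pow, Real.norm_of_nonneg ht0.le] at this
      rw [this]
      exact hC y (by simp [hyn])
    have h6 : t ≤ t ^ m := le_self_pow₀ ht1 (by omega)
    have h7 : t * ‖k a‖ ≤ C := (mul_le_mul_of_nonneg_right h6 (norm_nonneg _)).trans h5
    rw [← div_eq_mul_inv, le_div_iff₀ hp]
    rw [ht] at h7
    linarith

/-- potential with a far kernel -/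
noncomputable def FP (g : E3 → ℝ) (k : E3 → F) (X : E3) : F := ∫ w, g w • k (X - w)

lemma Lay.FP_hasFDerivAt {R M : ℝ} {g : E3 → ℝ} (hg : Lay R M g) {m : ℕ} (hm : 1 ≤ m)
    {k : E3 → F} (hk : Far m k) (X : E3) :
    HasFDerivAt (FP g k) (FP g (fderiv ℝ k) X) X := by
  obtain ⟨B, hB0, hB⟩ := hk.bound hm
  obtain ⟨B', hB0', hB'⟩ := hk.fderiv.bound (by omega)
  have hcont : Continuous k := hk.smooth.continuous
  have hcont' : Continuous (fderiv ℝ k) := hk.fderiv.smooth.continuous
  have hs : ball X (1 / 4) ∈ 𝓝 X := ball_mem_nhds X (by norm_num)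
  have hbi : Integrable ((LL R).indicator fun w => M * (B' * 4 * kk (X - w))) := by
    rw [integrable_indicator_iff (LL_meas R)]
    exact ((kk_int R X).const_mul _).const_mul M
  refine hasFDerivAt_integral_of_dominated_of_fderiv_le (F := fun X w => g w • k (X - w))
    (F' := fun X w => g w • fderiv ℝ k (X - w)) hs ?_ ?_ ?_ (ae_of_all _ ?_) hbi (ae_of_all _ ?_)
  · refine Eventually.of_forall fun Y => ?_
    exact hg.meas.aestronglyMeasurable.smul (hcont.comp (by fun_prop)).aestronglyMeasurable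
  · exact (hg.integrable hB0 hB hcont.stronglyMeasurable X).1
  · exact hg.meas.aestronglyMeasurable.smul (hcont'.comp (by fun_prop)).aestronglyMeasurable
  · intro w Y hY
    refine hg.norm_le (k := fun w => fderiv ℝ k (Y - w)) (b := fun w => B' * 4 * kk (X - w)) w ?_
    by_cases h1 : ‖Y - w‖ < 1 / 2
    · rw [hk.fderiv.zero _ h1, norm_zero]
      exact mul_nonneg (by positivity) (kk_nonneg _)
    have h1' : 1 / 2 ≤ ‖Y - w‖ := not_lt.1 h1
    refine (hB' _).trans ?_
    rw [mul_assoc]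
    apply mul_le_mul_of_nonneg_left _ hB0'
    have hY' : ‖Y - X‖ < 1 / 4 := by rwa [mem_ball, dist_eq_norm] at hY
    have h2 : ‖X - w‖ ≤ ‖Y - w‖ + ‖Y - X‖ := by
      have : X - w = (Y - w) - (Y - X) := by abel
      rw [this]; exact norm_sub_le _ _
    have h3 : ‖Y - w‖ ≤ ‖X - w‖ + ‖Y - X‖ := by
      have : Y - w = (X - w) + (Y - X) := by abel
      rw [this]; exact norm_add_le _ _
    have hp : 0 < ‖X - w‖ := by linarith
    have hq : 0 < ‖Y - w‖ := by linarith
    have h4 : ‖Y - w‖⁻¹ ≤ 2 * ‖X - w‖⁻¹ := by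
      rw [← div_eq_mul_inv, inv_eq_one_div, div_le_div_iff₀ hq hp]
      linarith
    have h5 : 0 < ‖Y - w‖⁻¹ := by positivity
    have h6 : 0 < ‖X - w‖⁻¹ := by positivity
    unfold kk
    nlinarith
  · intro w Y _
    have hd : HasFDerivAt k (fderiv ℝ k (Y - w)) (Y - w) :=
      (hk.smooth.differentiable (by norm_num)).differentiableAt.hasFDerivAt
    have h1 : HasFDerivAt (fun y : E3 => y - w) (ContinuousLinearMap.id ℝ E3) Y :=
      (hasFDerivAt_id Y).sub_const w
    have h2 := (HasFDerivAt.comp Y hd h1).const_smul (g w)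
    rwa [ContinuousLinearMap.comp_id] at h2

lemma Lay.FP_contDiff {R M : ℝ} {g : E3 → ℝ} (hg : Lay R M g) (n : ℕ) :
    ∀ {F : Type} [NormedAddCommGroup F] [NormedSpace ℝ F] {m : ℕ} (_ : 1 ≤ m)
    {k : E3 → F} (_ : Far m k), ContDiff ℝ n (FP g k) := by
  induction n with
  | zero =>
    intro F _ _ m hm k hk
    rw [CharP.cast_eq_zero, contDiff_zero]
    exact continuous_iff_continuousAt.2 fun X => (hg.FP_hasFDerivAt hm hk X).continuousAt
  | succ n ih =>
    intro F _ _ m hm k hk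
    push_cast
    rw [contDiff_succ_iff_hasFDerivAt]
    exact ⟨FP g (fderiv ℝ k), ih (by omega) hk.fderiv, fun X => hg.FP_hasFDerivAt hm hk X⟩

end Pool.Agent.H123R3
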