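import Pool.Agent.H123R3.Reg1

/-! # Regularity: the near kernel -/

set_option autoImplicit false

open MeasureTheory Set Filter Topology Metric
open scoped ENNReal NNReal ContDiff

namespace Pool.Agent.H123R3

/-- the cutoff -/
noncomputable def chi : ContDiffBump (0 : E3) := ⟨1 / 2, 1, by norm_num, by norm_num⟩

lemma chi_zero (x : E3) (hx : 1 ≤ ‖x‖) : chi x = 0 :=
  chi.zero_of_le_dist (by simpa [chi] using hx)

lemma chi_one (x : E3) (hx : ‖x‖ ≤ 1 / 2) : chi x = 1 :=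
  chi.one_of_mem_closedBall (by simpa [chi] using hx)

/-- the far part of the Newton kernel -/
noncomputable def Gt (x : E3) : ℝ := (1 - chi x) * ‖x‖⁻¹

/-- the near part of the Newton kernel -/
noncomputable def G0 (x : E3) : ℝ := chi x * ‖x‖⁻¹

lemma Gt_add_G0 (x : E3) : Gt x + G0 x = ‖x‖⁻¹ := by unfold Gt G0; ring

lemma Gt_of_le (x : E3) (hx : 1 ≤ ‖x‖) : Gt x = ‖x‖⁻¹ := by
  unfold Gt; rw [chi_zero x hx]; ring

lemma Gt_zero (x : E3) (hx : ‖x‖ ≤ 1 / 2) : Gt x = 0 := by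
  unfold Gt; rw [chi_one x hx]; ring

lemma G0_zero (x : E3) (hx : 1 ≤ ‖x‖) : G0 x = 0 := by
  unfold G0; rw [chi_zero x hx]; ring

lemma Gt_smooth : ContDiff ℝ ∞ Gt := by
  rw [contDiff_iff_contDiffAt]
  intro x
  by_cases hx : ‖x‖ < 1 / 2
  · have h : Gt =ᶠ[𝓝 x] fun _ => (0 : ℝ) := by
      have : {y : E3 | ‖y‖ < 1 / 2} ∈ 𝓝 x :=
        (isOpen_lt continuous_norm continuous_const).mem_nhds hx
      filter_upwards [this] with y hy
      exact Gt_zero y (le_of_lt hy)
    exact contDiffAt_const.congr_of_eventuallyEq h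
  · have hx0 : x ≠ 0 := by
      rintro rfl
      apply hx
      simp
    unfold Gt
    exact (contDiffAt_const.sub chi.contDiff.contDiffAt).mul
      ((contDiffAt_norm ℝ hx0).inv (norm_ne_zero_iff.2 hx0))

lemma Gt_far : Far 1 Gt where
  smooth := Gt_smooth
  zero := fun x hx => Gt_zero x hx.le
  hom := fun x t hx ht => by
    have h1 : ‖t • x‖ = t * ‖x‖ := by
      rw [norm_smul, Real.norm_of_nonneg (by linarith)]
    rw [Gt_of_le x hx.le, Gt_of_le (t • x) (by rw [h1]; nlinarith), h1, pow_one, smul_eq_mul]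
    field_simp

/-- the building block of the near part -/
noncomputable def kd (x : E3) : ℝ := 2 * Gt ((2 : ℝ) • x) - Gt x

lemma kd_smooth : ContDiff ℝ ∞ kd := by
  unfold kd
  exact (contDiff_const.mul (Gt_smooth.comp (contDiff_const_smul 2))).sub Gt_smooth

lemma kd_zero (x : E3) (hx : 1 ≤ ‖x‖) : kd x = 0 := by
  unfold kd
  have h1 : ‖(2 : ℝ) • x‖ = 2 * ‖x‖ := by
    rw [norm_smul, Real.norm_of_nonneg (by norm_num)]
  rw [Gt_of_le x hx, Gt_of_le _ (by rw [h1]; linarith), h1]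
  have : 0 < ‖x‖ := by linarith
  field_simp
  ring

lemma kd_supp : HasCompactSupport kd :=
  HasCompactSupport.intro (isCompact_closedBall (0 : E3) 1) fun x hx => kd_zero x (by
    simp only [mem_closedBall, dist_zero_right, not_le] at hx
    exact hx.le)

/-- the dyadic pieces -/
noncomputable def kj (j : ℕ) (x : E3) : ℝ := 2 ^ j * kd ((2 : ℝ) ^ j • x)

lemma kj_sum (N : ℕ) (x : E3) :
    ∑ j ∈ Finset.range N, kj j x = 2 ^ N * Gt ((2 : ℝ) ^ N • x) - Gt x := by
  induction N with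
  | zero => simp
  | succ N ih =>
    rw [Finset.sum_range_succ, ih]
    unfold kj kd
    rw [smul_smul, pow_succ]
    have : (2 : ℝ) * 2 ^ N = 2 ^ N * 2 := by ring
    rw [this]
    ring

lemma kj_hasSum (x : E3) (hx : x ≠ 0) : HasSum (fun j => kj j x) (G0 x) := by
  have hp : 0 < ‖x‖ := norm_pos_iff.2 hx
  obtain ⟨N, hN⟩ := pow_unbounded_of_one_lt (‖x‖⁻¹) (show (1 : ℝ) < 2 by norm_num)
  have hbig : ∀ j, N ≤ j → 1 ≤ ‖(2 : ℝ) ^ j • x‖ := by
    intro j hj
    rw [norm_smul, Real.norm_of_nonneg (by positivity)]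
    have h1 : (2 : ℝ) ^ N ≤ 2 ^ j := pow_le_pow_right₀ (by norm_num) hj
    have h2 : ‖x‖⁻¹ * ‖x‖ = 1 := inv_mul_cancel₀ hp.ne'
    nlinarith
  have h0 : ∀ j ∉ Finset.range N, kj j x = 0 := by
    intro j hj
    rw [Finset.mem_range, not_lt] at hj
    unfold kj
    rw [kd_zero _ (hbig j hj), mul_zero]
  have h1 : HasSum (fun j => kj j x) (∑ j ∈ Finset.range N, kj j x) :=
    hasSum_sum_of_ne_finset_zero h0
  rw [kj_sum, Gt_of_le _ (hbig N le_rfl), norm_smul, Real.norm_of_nonneg (by positivity)] at h1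
  have e : (2 : ℝ) ^ N * (2 ^ N * ‖x‖)⁻¹ - Gt x = G0 x := by
    have h2 := Gt_add_G0 x
    have h3 : (2 : ℝ) ^ N * (2 ^ N * ‖x‖)⁻¹ = ‖x‖⁻¹ := by field_simp
    rw [h3]; linarith
  rwa [e] at h1

lemma kj_smooth (j : ℕ) : ContDiff ℝ ∞ (kj j) := by
  unfold kj
  exact contDiff_const.mul (kd_smooth.comp (contDiff_const_smul _))

lemma kj_fderiv (j : ℕ) (x : E3) :
    fderiv ℝ (kj j) x = ((2 : ℝ) ^ j * 2 ^ j) • fderiv ℝ kd ((2 : ℝ) ^ j • x) := by
  have hd : HasFDerivAt kd (fderiv ℝ kd ((2 : ℝ) ^ j • x)) ((2 : ℝ) ^ j • x) :=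
    (kd_smooth.differentiable (by norm_num)).differentiableAt.hasFDerivAt
  have h1 : HasFDerivAt (fun y : E3 => (2 : ℝ) ^ j • y) ((2 : ℝ) ^ j • ContinuousLinearMap.id ℝ E3) x :=
    (hasFDerivAt_id x).const_smul ((2 : ℝ) ^ j)
  have h2 : HasFDerivAt (kj j)
      ((2 : ℝ) ^ j • ((fderiv ℝ kd ((2 : ℝ) ^ j • x)).comp
        ((2 : ℝ) ^ j • ContinuousLinearMap.id ℝ E3))) x :=
    (HasFDerivAt.comp x hd h1).const_mul ((2 : ℝ) ^ j)
  rw [h2.fderiv]
  ext v
  simp [mul_assoc]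

lemma int_scale (q : E3 → ℝ) (j : ℕ) :
    ∫ w, q ((2 : ℝ) ^ j • w) = ((2 : ℝ) ^ j)⁻¹ ^ 3 * ∫ w, q w := by
  rw [Measure.integral_comp_smul_of_nonneg (volume : Measure E3) q _ (hR := by positivity)]
  have hd : Module.finrank ℝ E3 = 3 := by simp
  rw [hd, smul_eq_mul, inv_pow]

/-- total masses -/
noncomputable def A0 : ℝ := ∫ w, ‖kd w‖

/-- total masses -/
noncomputable def A1 : ℝ := ∫ w, ‖fderiv ℝ kd w‖

lemma A0_nonneg : 0 ≤ A0 := integral_nonneg fun _ => norm_nonneg _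

lemma A1_nonneg : 0 ≤ A1 := integral_nonneg fun _ => norm_nonneg _

lemma kj_int (j : ℕ) : ∫ w, ‖kj j w‖ ≤ (1 / 2) ^ j * (A0 + A1) := by
  have h1 : ∀ w, ‖kj j w‖ = 2 ^ j * ‖kd ((2 : ℝ) ^ j • w)‖ := by
    intro w
    unfold kj
    rw [norm_mul, Real.norm_of_nonneg (by positivity)]
  simp_rw [h1]
  rw [integral_const_mul, int_scale (fun w => ‖kd w‖)]
  change _ * (_ * A0) ≤ _
  have h2 : (2 : ℝ) ^ j * (((2 : ℝ) ^ j)⁻¹ ^ 3 * A0) = ((1 / 2) ^ j) ^ 2 * A0 := by
    simp only [one_div, inv_pow]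
    field_simp
  rw [h2]
  have h3 : ((1 / 2 : ℝ) ^ j) ≤ 1 := pow_le_one₀ (by norm_num) (by norm_num)
  have h4 : (0 : ℝ) < (1 / 2) ^ j := by positivity
  have h5 := A0_nonneg
  have h6 := A1_nonneg
  have h7 : ((1 / 2 : ℝ) ^ j) ^ 2 ≤ (1 / 2) ^ j := by nlinarith
  nlinarith [mul_nonneg h4.le h6, mul_le_mul_of_nonneg_right h7 h5]

lemma kj_fint (j : ℕ) : ∫ w, ‖fderiv ℝ (kj j) w‖ ≤ (1 / 2) ^ j * (A0 + A1) := by
  have h1 : ∀ w, ‖fderiv ℝ (kj j) w‖ = (2 ^ j * 2 ^ j) * ‖fderiv ℝ kd ((2 : ℝ) ^ j • w)‖ := by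
    intro w
    rw [kj_fderiv, norm_smul, Real.norm_of_nonneg (by positivity)]
  simp_rw [h1]
  rw [integral_const_mul, int_scale (fun w => ‖fderiv ℝ kd w‖)]
  change _ * (_ * A1) ≤ _
  have h2 : ((2 : ℝ) ^ j * 2 ^ j) * (((2 : ℝ) ^ j)⁻¹ ^ 3 * A1) = ((1 / 2) ^ j) * A1 := by
    simp only [one_div, inv_pow]
    field_simp
  rw [h2]
  have h4 : (0 : ℝ) < (1 / 2) ^ j := by positivity
  nlinarith [mul_nonneg h4.le A0_nonneg]

variable {F : Type} [NormedAddCommGroup F] [NormedSpace ℝ F]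

/-- potential with the near kernel -/
noncomputable def NC (φ : E3 → F) (X : E3) : F := ∫ w, G0 (X - w) • φ w

/-- potential with a dyadic piece -/
noncomputable def NJ (φ : E3 → F) (j : ℕ) (X : E3) : F := ∫ w, kj j (X - w) • φ w

lemma kj_bdd (j : ℕ) : ∃ C, 0 ≤ C ∧ (∀ x, ‖kj j x‖ ≤ C) ∧ ∀ x, ‖fderiv ℝ (kj j) x‖ ≤ C := by
  obtain ⟨C1, hC1⟩ := kd_supp.exists_bound_of_continuous kd_smooth.continuous
  have hc : Continuous (fderiv ℝ kd) := kd_smooth.continuous_fderiv (by norm_num)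
  obtain ⟨C2, hC2⟩ := (kd_supp.fderiv (𝕜 := ℝ)).exists_bound_of_continuous hc
  have h1 : 0 ≤ C1 := (norm_nonneg _).trans (hC1 0)
  have h2 : 0 ≤ C2 := (norm_nonneg _).trans (hC2 0)
  have h3 : (0 : ℝ) ≤ 2 ^ j := by positivity
  refine ⟨2 ^ j * C1 + (2 ^ j * 2 ^ j) * C2, by positivity, fun x => ?_, fun x => ?_⟩
  · unfold kj
    rw [norm_mul, Real.norm_of_nonneg h3]
    have := mul_le_mul_of_nonneg_left (hC1 ((2 : ℝ) ^ j • x)) h3
    have h4 : 0 ≤ (2 ^ j * 2 ^ j) * C2 := by positivity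
    linarith
  · rw [kj_fderiv, norm_smul, Real.norm_of_nonneg (by positivity)]
    have := mul_le_mul_of_nonneg_left (hC2 ((2 : ℝ) ^ j • x)) (mul_nonneg h3 h3)
    have h4 : 0 ≤ 2 ^ j * C1 := by positivity
    linarith

lemma kj_integrable (j : ℕ) : Integrable (kj j) := by
  refine (kj_smooth j).continuous.integrable_of_hasCompactSupport ?_
  refine HasCompactSupport.intro (isCompact_closedBall (0 : E3) 1) fun x hx => ?_
  simp only [mem_closedBall, dist_zero_right, not_le] at hx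
  unfold kj
  rw [kd_zero, mul_zero]
  rw [norm_smul, Real.norm_of_nonneg (by positivity)]
  have : (1 : ℝ) ≤ 2 ^ j := one_le_pow₀ (by norm_num)
  nlinarith

lemma kj_fderiv_supp (j : ℕ) : HasCompactSupport (kj j) := by
  refine HasCompactSupport.intro (isCompact_closedBall (0 : E3) 1) fun x hx => ?_
  simp only [mem_closedBall, dist_zero_right, not_le] at hx
  unfold kj
  rw [kd_zero, mul_zero]
  rw [norm_smul, Real.norm_of_nonneg (by positivity)]
  have : (1 : ℝ) ≤ 2 ^ j := one_le_pow₀ (by norm_num)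
  nlinarith

lemma smulRight_cont {φ : E3 → F} (hφ : Continuous φ) {T : E3 → (E3 →L[ℝ] ℝ)} (hT : Continuous T) :
    Continuous fun w => (T w).smulRight (φ w) := by
  have h1 : Continuous fun w => (ContinuousLinearMap.smulRightL ℝ E3 F (T w)) (φ w) :=
    ((ContinuousLinearMap.smulRightL ℝ E3 F).continuous.comp hT).clm_apply hφ
  exact h1

lemma NJ_hasFDerivAt {φ : E3 → F} (hφ : Continuous φ) (hs : HasCompactSupport φ) (j : ℕ) (X : E3) :
    HasFDerivAt (NJ φ j) (∫ w, (fderiv ℝ (kj j) (X - w)).smulRight (φ w)) X := by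
  obtain ⟨C, hC0, hC1, hC2⟩ := kj_bdd j
  have hφi : Integrable φ := hφ.integrable_of_hasCompactSupport hs
  have hc := (kj_smooth j).continuous
  have hc' : Continuous (fderiv ℝ (kj j)) := (kj_smooth j).continuous_fderiv (by norm_num)
  refine hasFDerivAt_integral_of_dominated_of_fderiv_le (F := fun X w => kj j (X - w) • φ w)
    (F' := fun X w => (fderiv ℝ (kj j) (X - w)).smulRight (φ w)) (bound := fun w => C * ‖φ w‖)
    (ball_mem_nhds X one_pos) ?_ ?_ ?_ (ae_of_all _ ?_) (hφi.norm.const_mul C) (ae_of_all _ ?_)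
  · refine Eventually.of_forall fun Y => ?_
    exact ((hc.comp (by fun_prop)).smul hφ).aestronglyMeasurable
  · refine hφi.bdd_smul C ?_ (ae_of_all _ fun w => hC1 _)
    exact (hc.comp (by fun_prop)).aestronglyMeasurable
  · exact (smulRight_cont hφ (hc'.comp (by fun_prop))).aestronglyMeasurable
  · intro w Y _
    rw [ContinuousLinearMap.norm_smulRight_apply]
    exact mul_le_mul_of_nonneg_right (hC2 _) (norm_nonneg _)
  · intro w Y _
    have hd : HasFDerivAt (kj j) (fderiv ℝ (kj j) (Y - w)) (Y - w) :=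
      ((kj_smooth j).differentiable (by norm_num)).differentiableAt.hasFDerivAt
    have h1 : HasFDerivAt (fun y : E3 => y - w) (ContinuousLinearMap.id ℝ E3) Y :=
      (hasFDerivAt_id Y).sub_const w
    have h2 := (HasFDerivAt.comp Y hd h1).smul_const (φ w)
    rwa [ContinuousLinearMap.comp_id] at h2

lemma int_transl (q : E3 → ℝ) (X : E3) : ∫ w, q (X - w) = ∫ w, q w :=
  integral_sub_left_eq_self q volume X

lemma NJ_term_int {φ : E3 → F} (hφ : Continuous φ) {S : ℝ} (hS : ∀ w, ‖φ w‖ ≤ S) (j : ℕ) (X : E3) :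
    Integrable (fun w => kj j (X - w) • φ w) ∧
      ∫ w, ‖kj j (X - w) • φ w‖ ≤ S * ((1 / 2) ^ j * (A0 + A1)) := by
  have hki : Integrable fun w => kj j (X - w) := (kj_integrable j).comp_sub_left X
  have hi : Integrable (fun w => kj j (X - w) • φ w) :=
    hki.smul_bdd S hφ.aestronglyMeasurable (ae_of_all _ hS)
  refine ⟨hi, ?_⟩
  have hS0 : 0 ≤ S := (norm_nonneg _).trans (hS 0)
  calc ∫ w, ‖kj j (X - w) • φ w‖ ≤ ∫ w, S * ‖kj j (X - w)‖ := by
        apply integral_mono hi.norm (hki.norm.const_mul S)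
        intro w
        simp only
        rw [norm_smul, mul_comm]
        exact mul_le_mul_of_nonneg_right (hS w) (norm_nonneg _)
    _ = S * ∫ w, ‖kj j w‖ := by
        rw [integral_const_mul, int_transl (fun w => ‖kj j w‖)]
    _ ≤ _ := mul_le_mul_of_nonneg_left (kj_int j) hS0

lemma NJ_norm_fderiv {φ : E3 → F} {S : ℝ} (hS : ∀ w, ‖φ w‖ ≤ S) (j : ℕ) (X : E3) :
    ‖∫ w, (fderiv ℝ (kj j) (X - w)).smulRight (φ w)‖ ≤ S * ((1 / 2) ^ j * (A0 + A1)) := by
  have hS0 : 0 ≤ S := (norm_nonneg _).trans (hS 0)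
  have hc' : Continuous (fderiv ℝ (kj j)) := (kj_smooth j).continuous_fderiv (by norm_num)
  have hi1 : Integrable (fderiv ℝ (kj j)) :=
    hc'.integrable_of_hasCompactSupport ((kj_fderiv_supp j).fderiv (𝕜 := ℝ))
  have hki : Integrable fun w => fderiv ℝ (kj j) (X - w) := hi1.comp_sub_left X
  calc ‖∫ w, (fderiv ℝ (kj j) (X - w)).smulRight (φ w)‖ ≤
      ∫ w, S * ‖fderiv ℝ (kj j) (X - w)‖ := by
        apply norm_integral_le_of_norm_le (hki.norm.const_mul S)
        refine ae_of_all _ fun w => ?_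
        rw [ContinuousLinearMap.norm_smulRight_apply, mul_comm]
        exact mul_le_mul_of_nonneg_right (hS w) (norm_nonneg _)
    _ = S * ∫ w, ‖fderiv ℝ (kj j) w‖ := by
        rw [integral_const_mul, int_transl (fun w => ‖fderiv ℝ (kj j) w‖)]
    _ ≤ _ := mul_le_mul_of_nonneg_left (kj_fint j) hS0

lemma NC_eq_tsum {φ : E3 → F} (hφ : Continuous φ) {S : ℝ} (hS : ∀ w, ‖φ w‖ ≤ S) (X : E3) :
    NC φ X = ∑' j, NJ φ j X := by
  have hsum : Summable fun j : ℕ => S * ((1 / 2 : ℝ) ^ j * (A0 + A1)) :=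
    ((summable_geometric_of_lt_one (by norm_num) (by norm_num)).mul_right _).mul_left _
  have h1 := integral_tsum_of_summable_integral_norm (μ := (volume : Measure E3))
    (F := fun j w => kj j (X - w) • φ w)
    (fun j => (NJ_term_int hφ hS j X).1)
    (Summable.of_nonneg_of_le (fun j => integral_nonneg fun _ => norm_nonneg _)
      (fun j => (NJ_term_int hφ hS j X).2) hsum)
  unfold NJ
  rw [h1]
  unfold NC
  apply integral_congr_ae
  have hne : ∀ᵐ w : E3, w ≠ X := by rw [ae_iff]; simp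
  filter_upwards [hne] with w hw
  exact ((kj_hasSum (X - w) (sub_ne_zero.2 (Ne.symm hw))).smul_const (φ w)).tsum_eq.symm

lemma NC_contDiff_one [CompleteSpace F] {φ : E3 → F} (hφ : Continuous φ)
    (hs : HasCompactSupport φ) : ContDiff ℝ 1 (NC φ) := by
  obtain ⟨S, hS⟩ := hs.exists_bound_of_continuous hφ
  have e : NC φ = fun X => ∑' j, NJ φ j X := by
    ext X; exact NC_eq_tsum hφ hS X
  rw [e]
  have hsum : Summable fun j : ℕ => S * ((1 / 2 : ℝ) ^ j * (A0 + A1)) :=
    ((summable_geometric_of_lt_one (by norm_num) (by norm_num)).mul_right _).mul_left _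
  have hd : ∀ j X, fderiv ℝ (NJ φ j) X = ∫ w, (fderiv ℝ (kj j) (X - w)).smulRight (φ w) :=
    fun j X => (NJ_hasFDerivAt hφ hs j X).fderiv
  have hC1 : ∀ j, ContDiff ℝ ((1 : ℕ∞) : WithTop ℕ∞) (NJ φ j) := by
    intro j
    obtain ⟨C, hC0, hC1, hC2⟩ := kj_bdd j
    have hφi : Integrable φ := hφ.integrable_of_hasCompactSupport hs
    have hc' : Continuous (fderiv ℝ (kj j)) := (kj_smooth j).continuous_fderiv (by norm_num)
    rw [show ((1 : ℕ∞) : WithTop ℕ∞) = 1 from rfl, contDiff_one_iff_hasFDerivAt]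
    refine ⟨fun X => ∫ w, (fderiv ℝ (kj j) (X - w)).smulRight (φ w), ?_, NJ_hasFDerivAt hφ hs j⟩
    refine continuous_of_dominated (bound := fun w => C * ‖φ w‖) ?_ ?_ (hφi.norm.const_mul C) ?_
    · intro X
      exact (smulRight_cont hφ (hc'.comp (by fun_prop))).aestronglyMeasurable
    · intro X
      refine ae_of_all _ fun w => ?_
      rw [ContinuousLinearMap.norm_smulRight_apply]
      exact mul_le_mul_of_nonneg_right (hC2 _) (norm_nonneg _)
    · refine ae_of_all _ fun w => ?_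
      exact smulRight_cont (φ := fun _ : E3 => φ w) continuous_const (hc'.comp (by fun_prop))
  refine contDiff_tsum (N := 1) (v := fun _ j => S * ((1 / 2 : ℝ) ^ j * (A0 + A1))) hC1
    (fun _ _ => hsum) ?_
  intro k j X hk
  have hk1 : k ≤ 1 := by exact_mod_cast hk
  interval_cases k
  · rw [norm_iteratedFDeriv_zero]
    exact (norm_integral_le_integral_norm _).trans (NJ_term_int hφ hS j X).2
  · rw [norm_iteratedFDeriv_one, hd]
    exact NJ_norm_fderiv hS j X

lemma ball_sub_LL (w : E3) (hw : ‖w‖ < 1) : w ∈ LL 5 := by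
  have h0 := coord_le w 0
  have h1 := coord_le w 1
  have h2 := coord_le w 2
  have a0 : |w 0| ≤ 1 := by linarith
  have a1 : |w 1| ≤ 1 := by linarith
  have a2 : |w 2| ≤ 1 := by linarith
  change |w 0 + hh (w 1) (w 2)| ≤ 5
  unfold hh
  rw [abs_le] at *
  have b1 : (w 1) ^ 2 ≤ 1 := by nlinarith
  have b2 : (w 2) ^ 2 ≤ 1 := by nlinarith
  have c1 : |(w 1) ^ 3| ≤ 1 := by
    rw [abs_pow]
    exact pow_le_one₀ (abs_nonneg _) (abs_le.2 a1)
  have c2 : |(w 1) * (w 2) ^ 2| ≤ 1 := by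
    rw [abs_mul, abs_of_nonneg (sq_nonneg (w 2))]
    have : |w 1| ≤ 1 := abs_le.2 a1
    nlinarith [abs_nonneg (w 1), sq_nonneg (w 2)]
  rw [abs_le] at c1 c2
  constructor <;> nlinarith

lemma G0_integrable : Integrable G0 := by
  have hi : Integrable ((LL 5).indicator fun w => kk (0 - w)) := by
    rw [integrable_indicator_iff (LL_meas 5)]
    exact kk_int 5 0
  refine hi.mono' ?_ (ae_of_all _ fun w => ?_)
  · unfold G0
    apply Measurable.aestronglyMeasurable
    exact (chi.contDiff (n := 0)).continuous.measurable.mul (by fun_prop)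
  · by_cases hw : ‖w‖ < 1
    · rw [indicator_of_mem (ball_sub_LL w hw), zero_sub]
      unfold G0 kk
      rw [norm_mul, norm_neg, Real.norm_of_nonneg chi.nonneg, Real.norm_of_nonneg (by positivity)]
      have h1 := chi.le_one (x := w)
      have h2 : 0 ≤ ‖w‖⁻¹ := by positivity
      nlinarith [sq_nonneg (‖w‖⁻¹)]
    · rw [G0_zero w (not_lt.1 hw), norm_zero]
      exact indicator_nonneg (fun _ _ => kk_nonneg _) _

lemma NC_eq (φ : E3 → F) (X : E3) : NC φ X = ∫ w, G0 w • φ (X - w) := by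
  have := integral_sub_left_eq_self (fun w => G0 w • φ (X - w)) (volume : Measure E3) X
  rw [← this]
  unfold NC
  congr 1
  ext w
  rw [sub_sub_cancel]

lemma NC_hasFDerivAt {φ : E3 → F} (hφ : ContDiff ℝ 1 φ) (hs : HasCompactSupport φ) (X : E3) :
    HasFDerivAt (NC φ) (NC (fderiv ℝ φ) X) X := by
  have hc := hφ.continuous
  have hc' : Continuous (fderiv ℝ φ) := hφ.continuous_fderiv (by norm_num)
  obtain ⟨S, hS⟩ := hs.exists_bound_of_continuous hc
  obtain ⟨S', hS'⟩ := (hs.fderiv (𝕜 := ℝ)).exists_bound_of_continuous hc'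
  rw [NC_eq, show NC φ = fun X => ∫ w, G0 w • φ (X - w) from funext (NC_eq φ)]
  refine hasFDerivAt_integral_of_dominated_of_fderiv_le (F := fun X w => G0 w • φ (X - w))
    (F' := fun X w => G0 w • fderiv ℝ φ (X - w)) (bound := fun w => ‖G0 w‖ * S')
    (ball_mem_nhds X one_pos) ?_ ?_ ?_ (ae_of_all _ ?_) (G0_integrable.norm.mul_const S')
    (ae_of_all _ ?_)
  · refine Eventually.of_forall fun Y => ?_
    exact G0_integrable.aestronglyMeasurable.smul (hc.comp (by fun_prop)).aestronglyMeasurable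
  · exact G0_integrable.smul_bdd S (hc.comp (by fun_prop)).aestronglyMeasurable
      (ae_of_all _ fun w => hS _)
  · exact G0_integrable.aestronglyMeasurable.smul (hc'.comp (by fun_prop)).aestronglyMeasurable
  · intro w Y _
    rw [norm_smul]
    exact mul_le_mul_of_nonneg_left (hS' _) (norm_nonneg _)
  · intro w Y _
    have hd : HasFDerivAt φ (fderiv ℝ φ (Y - w)) (Y - w) :=
      (hφ.differentiable (by norm_num)).differentiableAt.hasFDerivAt
    have h1 : HasFDerivAt (fun y : E3 => y - w) (ContinuousLinearMap.id ℝ E3) Y :=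
      (hasFDerivAt_id Y).sub_const w
    have h2 := (HasFDerivAt.comp Y hd h1).const_smul (G0 w)
    rwa [ContinuousLinearMap.comp_id] at h2

lemma NC_contDiff (n : ℕ) :
    ∀ {F : Type} [NormedAddCommGroup F] [NormedSpace ℝ F] [CompleteSpace F] {φ : E3 → F}
    (_ : ContDiff ℝ n φ) (_ : HasCompactSupport φ), ContDiff ℝ (n + 1) (NC φ) := by
  induction n with
  | zero =>
    intro F _ _ _ φ hφ hs
    have := NC_contDiff_one hφ.continuous hs
    simpa using this
  | succ n ih =>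
    intro F _ _ _ φ hφ hs
    push_cast at hφ ⊢
    have h1 : ContDiff ℝ 1 φ := hφ.of_le (by exact_mod_cast Nat.le_add_left 1 n)
    have h2 : ContDiff ℝ n (fderiv ℝ φ) := hφ.fderiv_right le_rfl
    have h3 := ih h2 (hs.fderiv (𝕜 := ℝ))
    have h4 : ContDiff ℝ (((n + 1 : ℕ) : WithTop ℕ∞) + 1) (NC φ) := by
      rw [contDiff_succ_iff_hasFDerivAt]
      exact ⟨NC (fderiv ℝ φ), by exact_mod_cast h3, fun X => NC_hasFDerivAt h1 hs X⟩
    exact_mod_cast h4

lemma near_contDiff {n : ℕ} {g : E3 → ℝ} (hg : ContDiff ℝ n g) :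
    ContDiff ℝ (n + 1) (fun X => ∫ w, g w * G0 (X - w)) := by
  rw [contDiff_iff_contDiffAt]
  intro X
  let z : ContDiffBump X := ⟨2, 3, by norm_num, by norm_num⟩
  have h1 : ContDiff ℝ n (fun w => z w * g w) := z.contDiff.mul hg
  have h2 : HasCompactSupport (fun w => z w * g w) := z.hasCompactSupport.mul_right
  have h3 := NC_contDiff n h1 h2
  refine (h3.contDiffAt (x := X)).congr_of_eventuallyEq ?_
  filter_upwards [ball_mem_nhds X one_pos] with Y hY
  unfold NC
  congr 1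
  ext w
  rw [smul_eq_mul]
  by_cases hw : 1 ≤ ‖Y - w‖
  · rw [G0_zero _ hw]; ring
  · have hw' : ‖Y - w‖ < 1 := not_le.1 hw
    have hz : z w = 1 := by
      apply z.one_of_mem_closedBall
      change dist w X ≤ 2
      rw [mem_ball] at hY
      rw [← dist_eq_norm, dist_comm] at hw'
      have := dist_triangle w Y X
      linarith
    change g w * G0 (Y - w) = G0 (Y - w) * (z w * g w)
    rw [hz]; ring

/-- **regularity of Newton potentials** -/
lemma Lay.NP_contDiff {R M : ℝ} {g : E3 → ℝ} (hg : Lay R M g) {n : ℕ} (hn : ContDiff ℝ n g) :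
    ContDiff ℝ (n + 1) (NP g) := by
  have h1 : ContDiff ℝ ((n + 1 : ℕ) : WithTop ℕ∞) (FP g Gt) := hg.FP_contDiff (n + 1) le_rfl Gt_far
  have h2 := near_contDiff hn
  have e : NP g = fun X => FP g Gt X + ∫ w, g w * G0 (X - w) := by
    ext X
    unfold NP FP
    have hB := Gt_far.bound le_rfl
    obtain ⟨B, hB0, hB⟩ := hB
    have hi1 := (hg.integrable hB0 hB Gt_smooth.continuous.stronglyMeasurable X).1
    have hi2 : Integrable fun w => g w * G0 (X - w) := by
      have := (G0_integrable.comp_sub_left X).bdd_mul (c := M) hg.meas.aestronglyMeasurable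
        (ae_of_all _ fun w => by simpa using hg.bdd w)
      exact this
    rw [← integral_add hi1 hi2]
    congr 1
    ext w
    rw [← Gt_add_G0 (X - w), smul_eq_mul]
    ring
  rw [e]
  push_cast at h1
  exact h1.add h2

lemma u0_smooth : ContDiff ℝ ∞ u0 := by
  have hc : ∀ i : Fin 3, ContDiff ℝ ∞ fun w : E3 => w i := fun i => by fun_prop
  unfold u0 hh
  exact (hc 0).add (((hc 1).pow 3).sub ((contDiff_const.mul (hc 1)).mul ((hc 2).pow 2)))

/-- **bootstrapping** -/
lemma smooth_of_fix {f : ℝ → ℝ} (hf : ContDiff ℝ ∞ f) {v : E3 → ℝ} (hv : Continuous v) {κ R M : ℝ}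
    (hl : Lay R M (fun w => f (u0 w + v w)))
    (h : ∀ X, v X = -κ * NP (fun w => f (u0 w + v w)) X) : ContDiff ℝ ∞ v := by
  have key : ∀ n : ℕ, ContDiff ℝ n v := by
    intro n
    induction n with
    | zero => simpa using hv
    | succ n ih =>
      have h1 : ContDiff ℝ n (fun w => f (u0 w + v w)) :=
        (hf.of_le (by exact_mod_cast le_top)).comp ((u0_smooth.of_le (by exact_mod_cast le_top)).add ih)
      have h2 := hl.NP_contDiff h1
      have e : v = fun X => -κ * NP (fun w => f (u0 w + v w)) X := funext h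
      rw [e]
      push_cast
      exact contDiff_const.mul h2
  exact contDiff_infty.2 key

end Pool.Agent.H123R3
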